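import Mathlib.Data.Int.Star
import Mathlib.Algebra.Order.Ring.Star
import Mathlib.NumberTheory.LegendreSymbol.JacobiSymbol

set_option autoImplicit false

open NumberTheorySymbols

namespace Pool.Agent.MP_110442_nt

lemma jac_one {a x y : ℤ} {Q : ℕ} (h : (Q : ℤ) ∣ a * y ^ 2 - x ^ 2) (ha : IsCoprime a Q)
    (hy : IsCoprime y Q) : J(a | Q) = 1 := by
  have h1 : J(a * y ^ 2 | Q) = J(x ^ 2 | Q) :=
    jacobiSym.mod_left' (Int.ModEq.symm (Int.modEq_iff_dvd.2 h))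
  have hx : IsCoprime x Q := by
    obtain ⟨m, hm⟩ := h
    have : IsCoprime (x ^ 2) Q := by
      have e : x ^ 2 = a * y ^ 2 + Q * (-m) := by linarith
      rw [e]
      exact (ha.mul_left hy.pow_left).add_mul_left_left _
    exact (IsCoprime.pow_left_iff two_pos).1 this
  rw [jacobiSym.mul_left, jacobiSym.sq_one' (Int.isCoprime_iff_gcd_eq_one.1 hy),
    jacobiSym.sq_one' (Int.isCoprime_iff_gcd_eq_one.1 hx), mul_one] at h1
  exact h1

lemma mod_four {p s Q : ℕ} (h : Q ∣ p ^ 2 + s ^ 2) (hps : Nat.Coprime p s) (hQ : Q % 2 = 1) :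
    Q % 4 = 1 := by
  have hs : Nat.Coprime s Q := by
    refine Nat.Coprime.coprime_dvd_right h ?_
    rw [sq s, Nat.coprime_add_mul_left_right]
    exact hps.symm.pow_right 2
  have h1 : J(-1 | Q) = 1 := jac_one (x := p) (y := s) (by
    have : (Q : ℤ) ∣ (p : ℤ) ^ 2 + s ^ 2 := by exact_mod_cast h
    rw [show -1 * (s : ℤ) ^ 2 - p ^ 2 = -(p ^ 2 + s ^ 2) by ring]
    exact this.neg_right) isCoprime_one_left.neg_left
    (Nat.isCoprime_iff_coprime.2 hs)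
  rw [jacobiSym.at_neg_one (Nat.odd_iff.2 hQ), ZMod.χ₄_nat_eq_if_mod_four] at h1
  split_ifs at h1 <;> omega

lemma jac_two {Q : ℕ} (hQ : Q % 4 = 1) : (Q % 8 = 1 ∧ J(2 | Q) = 1) ∨ (Q % 8 = 5 ∧ J(2 | Q) = -1) := by
  rw [jacobiSym.at_two (Nat.odd_iff.2 (by omega)), ZMod.χ₈_nat_eq_if_mod_eight]
  split_ifs <;> omega

lemma param (n : ℕ) (a b c d : ℚ) (ha : 0 < a) (hc : 0 < c) (hd : 0 < d)
    (h1 : (n : ℚ) = (a + b) * (c + d)) (h2 : a * b * c * d = 1) :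
    ∃ p q r s k l : ℕ, 0 < p ∧ 0 < q ∧ 0 < r ∧ 0 < s ∧ Nat.Coprime p s ∧ Nat.Coprime q r ∧
      Nat.Coprime (p * s) (q * r) ∧ q ^ 2 + r ^ 2 = k * (p * s) ∧ p ^ 2 + s ^ 2 = l * (q * r) ∧
      n = k * l := by
  have rep : ∀ x : ℚ, 0 < x → ∃ u v : ℕ, 0 < u ∧ 0 < v ∧ Nat.Coprime u v ∧ x = u / v := by
    intro x hx
    have hn := Rat.num_pos.2 hx
    refine ⟨x.num.natAbs, x.den, Int.natAbs_pos.2 hn.ne', x.pos, x.reduced, ?_⟩
    rw [Nat.cast_natAbs, abs_of_pos hn]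
    exact (Rat.num_div_den x).symm
  obtain ⟨a1, b1, ha1, hb1, hab, hx⟩ := rep (a * c) (by positivity)
  obtain ⟨c1, d1, hc1, hd1, hcd, hy⟩ := rep (a * d) (by positivity)
  have e : (n : ℚ) = a * c + (a * c)⁻¹ + (a * d + (a * d)⁻¹) := by
    have e1 : (a * c)⁻¹ = b * d := inv_eq_of_mul_eq_one_right (by linear_combination h2)
    have e2 : (a * d)⁻¹ = b * c := inv_eq_of_mul_eq_one_right (by linear_combination h2)
    rw [e1, e2, h1]; ring
  rw [hx, hy] at e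
  field_simp at e
  have e' : n * (a1 * b1) * (c1 * d1)
      = (a1 ^ 2 + b1 ^ 2) * (c1 * d1) + (c1 ^ 2 + d1 ^ 2) * (a1 * b1) := by
    have : (n : ℚ) * (a1 * b1) * (c1 * d1)
        = (a1 ^ 2 + b1 ^ 2) * (c1 * d1) + (c1 ^ 2 + d1 ^ 2) * (a1 * b1) := by
      linear_combination e
    exact_mod_cast this
  have cop : ∀ u v : ℕ, Nat.Coprime u v → Nat.Coprime (u * v) (u ^ 2 + v ^ 2) := by
    intro u v h
    apply Nat.Coprime.mul_left
    · rw [sq u, Nat.coprime_mul_left_add_right]; exact h.pow_right 2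
    · rw [sq v, Nat.coprime_add_mul_left_right]; exact h.symm.pow_right 2
  have t1 : a1 * b1 ∣ c1 * d1 := by
    apply (cop a1 b1 hab).dvd_of_dvd_mul_left
    apply (Nat.dvd_add_left (Dvd.intro_left (c1 ^ 2 + d1 ^ 2) rfl)).1
    rw [← e']
    exact (Dvd.intro_left n rfl).mul_right _
  have t2 : c1 * d1 ∣ a1 * b1 := by
    apply (cop c1 d1 hcd).dvd_of_dvd_mul_left
    apply (Nat.dvd_add_right (Dvd.intro_left (a1 ^ 2 + b1 ^ 2) rfl)).1
    rw [← e']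
    exact Dvd.intro_left _ rfl
  have t3 : a1 * b1 = c1 * d1 := Nat.dvd_antisymm t1 t2
  obtain ⟨p, r, ⟨q, rfl⟩, ⟨s, rfl⟩, rfl⟩ :=
    exists_dvd_and_dvd_of_dvd_mul (show c1 ∣ a1 * b1 from t3 ▸ dvd_mul_right _ _)
  have hp : 0 < p := Nat.pos_of_ne_zero (by rintro rfl; simp at ha1)
  have hq : 0 < q := Nat.pos_of_ne_zero (by rintro rfl; simp at ha1)
  have hr : 0 < r := Nat.pos_of_ne_zero (by rintro rfl; simp at hb1)
  have hs : 0 < s := Nat.pos_of_ne_zero (by rintro rfl; simp at hb1)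
  obtain rfl : d1 = q * s := by
    apply Nat.eq_of_mul_eq_mul_left hc1
    rw [← t3]; ring
  have hps : Nat.Coprime p s := hab.coprime_mul_right.coprime_mul_left_right
  have hqr : Nat.Coprime q r := hab.coprime_mul_left.coprime_mul_right_right
  have hpq : Nat.Coprime p q := hcd.coprime_mul_right.coprime_mul_right_right
  have hpr : Nat.Coprime p r := hab.coprime_mul_right.coprime_mul_right_right
  have hqs : Nat.Coprime q s := hab.coprime_mul_left.coprime_mul_left_right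
  have hrs : Nat.Coprime r s := hcd.coprime_mul_left.coprime_mul_left_right
  have e3 : n * (p * s) * (q * r) = (p ^ 2 + s ^ 2) * (q ^ 2 + r ^ 2) := by
    apply Nat.eq_of_mul_eq_mul_left (show 0 < p * q * r * s by positivity)
    linear_combination e'
  obtain ⟨k, hk⟩ : p * s ∣ q ^ 2 + r ^ 2 := by
    apply (cop p s hps).dvd_of_dvd_mul_left
    rw [← e3]
    exact (Dvd.intro_left n rfl).mul_right _
  obtain ⟨l, hl⟩ : q * r ∣ p ^ 2 + s ^ 2 := by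
    apply (cop q r hqr).dvd_of_dvd_mul_right
    rw [← e3]
    exact Dvd.intro_left _ rfl
  refine ⟨p, q, r, s, k, l, hp, hq, hr, hs, hps, hqr,
    Nat.Coprime.mul_left (hpq.mul_right hpr) (hqs.symm.mul_right hrs.symm), by rw [hk]; ring,
    by rw [hl]; ring, ?_⟩
  apply Nat.eq_of_mul_eq_mul_left (show 0 < p * q * r * s by positivity)
  rw [hk, hl] at e3
  linear_combination e3

lemma recip {p q r s k l κ : ℕ} (hqr : Nat.Coprime q r) (hps : Nat.Coprime p s)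
    (hPQ : Nat.Coprime (p * s) (q * r)) (hk : q ^ 2 + r ^ 2 = k * (p * s))
    (hl : p ^ 2 + s ^ 2 = l * (q * r)) (hQ : q * r % 2 = 1) (hκ : κ ∣ k) (hκ2 : κ % 2 = 1) :
    q * r % 4 = 1 ∧ κ % 4 = 1 ∧ J(2 * k | q * r) = 1 ∧ J(2 | κ) * J(κ | q * r) = 1 := by
  have hQ4 : q * r % 4 = 1 := mod_four (Dvd.intro_left l hl.symm) hps hQ
  have hκ4 : κ % 4 = 1 := mod_four (hκ.trans (Dvd.intro _ hk.symm)) hqr hκ2
  have hkQ : Nat.Coprime k (q * r) := by
    refine Nat.Coprime.coprime_dvd_left (Dvd.intro _ hk.symm) (Nat.Coprime.mul_right ?_ ?_)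
    · rw [sq q, Nat.coprime_mul_left_add_left]; exact hqr.symm.pow_left 2
    · rw [sq r, Nat.coprime_add_mul_left_left]; exact hqr.pow_left 2
  have hk' : (q : ℤ) ^ 2 + r ^ 2 = k * (p * s) := by exact_mod_cast hk
  have hl' : (p : ℤ) ^ 2 + s ^ 2 = l * (q * r) := by exact_mod_cast hl
  have c2 : ∀ m : ℕ, m % 2 = 1 → IsCoprime (2 : ℤ) m := fun m hm =>
    Nat.isCoprime_iff_coprime.2 ((Nat.coprime_two_left).2 (Nat.odd_iff.2 hm))
  refine ⟨hQ4, hκ4, ?_, ?_⟩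
  · refine jac_one (x := (p + s) * (q + r)) (y := (p * s : ℕ)) ?_
      ((c2 _ hQ).mul_left (Nat.isCoprime_iff_coprime.2 hkQ)) (Nat.isCoprime_iff_coprime.2 hPQ)
    refine ⟨-(l * (q + r) ^ 2 + 4 * p * s), ?_⟩
    push_cast
    linear_combination (-(2 * p * s)) * hk' - ((q : ℤ) + r) ^ 2 * hl'
  · have h1 : J(2 * ((q * r : ℕ) : ℤ) | κ) = 1 := by
      refine jac_one (x := q + r) (y := 1) ?_ ((c2 _ hκ2).mul_left
        (Nat.isCoprime_iff_coprime.2 (hkQ.coprime_dvd_left hκ).symm)) isCoprime_one_left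
      obtain ⟨t, rfl⟩ := hκ
      refine ⟨-(t * (p * s)), ?_⟩
      push_cast at hk' ⊢
      linear_combination -hk'
    rw [jacobiSym.mul_left, jacobiSym.quadratic_reciprocity_one_mod_four hQ4
      (Nat.odd_iff.2 hκ2)] at h1
    exact h1

lemma sq_mod (x : ℕ) : (x % 2 = 1 ∧ x ^ 2 % 8 = 1) ∨ (x % 4 = 2 ∧ x ^ 2 % 8 = 4) ∨
    (x % 4 = 0 ∧ x ^ 2 % 8 = 0) := by
  have : x % 8 < 8 := Nat.mod_lt _ (by norm_num)
  rw [Nat.pow_mod, ← Nat.mod_mod_of_dvd x (show 2 ∣ 8 by norm_num),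
    ← Nat.mod_mod_of_dvd x (show 4 ∣ 8 by norm_num)]
  interval_cases x % 8 <;> simp

lemma odd_case {p q r s k l : ℕ} (hqr : Nat.Coprime q r) (hps : Nat.Coprime p s)
    (hPQ : Nat.Coprime (p * s) (q * r)) (hk : q ^ 2 + r ^ 2 = k * (p * s))
    (hl : p ^ 2 + s ^ 2 = l * (q * r)) (hQ : q * r % 2 = 1) (hk2 : k % 2 = 1) (hl2 : l % 2 = 1) :
    k * l % 8 = 5 := by
  obtain ⟨h1, h2, h3, h4⟩ := recip hqr hps hPQ hk hl hQ dvd_rfl hk2
  rw [jacobiSym.mul_left] at h3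
  have h5 : k % 8 = q * r % 8 := by
    rcases jac_two h1 with ⟨a1, a2⟩ | ⟨a1, a2⟩ <;> rcases jac_two h2 with ⟨b1, b2⟩ | ⟨b1, b2⟩ <;>
      rw [a2] at h3 <;> rw [b2] at h4 <;> omega
  have hq : q % 2 = 1 := by
    by_contra h; rw [Nat.mul_mod, show q % 2 = 0 by omega] at hQ; simp at hQ
  have hr : r % 2 = 1 := by
    by_contra h; rw [Nat.mul_mod, show r % 2 = 0 by omega] at hQ; simp at hQ
  have h6 : k * (p * s) % 8 = 2 := by
    have := sq_mod q; have := sq_mod r; omega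
  have h7 : l * (q * r) % 2 = 1 := by rw [Nat.mul_mod, hl2, hQ]
  have h8 : ¬ p % 4 = 0 := by
    intro h
    obtain ⟨t, rfl⟩ := Nat.dvd_of_mod_eq_zero h
    rw [show k * (4 * t * s) = 4 * (k * t * s) by ring] at h6; omega
  have h9 : ¬ s % 4 = 0 := by
    intro h
    obtain ⟨t, rfl⟩ := Nat.dvd_of_mod_eq_zero h
    rw [show k * (p * (4 * t)) = 4 * (k * t * p) by ring] at h6; omega
  have h10 : l * (q * r) % 8 = 5 := by
    have := sq_mod p; have := sq_mod s; omega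
  rw [mul_comm, Nat.mul_mod, h5, ← Nat.mul_mod, h10]

lemma even_case {p q r s k l : ℕ} (hqr : Nat.Coprime q r) (hps : Nat.Coprime p s)
    (hPQ : Nat.Coprime (p * s) (q * r)) (hk : q ^ 2 + r ^ 2 = k * (p * s))
    (hl : p ^ 2 + s ^ 2 = l * (q * r)) (hl2 : l % 2 = 0) :
    k * l % 64 = 4 ∧ k % 16 = 2 ∧ l % 16 = 2 := by
  have odd2 : ∀ {x y m z : ℕ}, Nat.Coprime x y → x ^ 2 + y ^ 2 = m * z → m % 2 = 0 →
      x % 2 = 1 ∧ y % 2 = 1 ∧ m % 4 = 2 ∧ z % 2 = 1 := by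
    intro x y m z hxy h hm
    obtain ⟨m, rfl⟩ := Nat.dvd_of_mod_eq_zero hm
    have h1 : ¬ (x % 2 = 0 ∧ y % 2 = 0) := fun h => by
      have := Nat.dvd_gcd (Nat.dvd_of_mod_eq_zero h.1) (Nat.dvd_of_mod_eq_zero h.2)
      rw [hxy] at this; omega
    rw [mul_assoc] at h
    have h2 : m * z % 2 = 1 := by have := sq_mod x; have := sq_mod y; omega
    have h3 : m % 2 = 1 := by
      by_contra h; rw [Nat.mul_mod, show m % 2 = 0 by omega] at h2; simp at h2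
    have h4 : z % 2 = 1 := by
      by_contra h; rw [Nat.mul_mod, show z % 2 = 0 by omega] at h2; simp at h2
    have := sq_mod x; have := sq_mod y; omega
  obtain ⟨hp, hs, hl4, hQ⟩ := odd2 hps hl hl2
  have hq : q % 2 = 1 := by
    by_contra h; rw [Nat.mul_mod, show q % 2 = 0 by omega] at hQ; simp at hQ
  have hr : r % 2 = 1 := by
    by_contra h; rw [Nat.mul_mod, show r % 2 = 0 by omega] at hQ; simp at hQ
  have hP : p * s % 2 = 1 := by rw [Nat.mul_mod, hp, hs]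
  have hk2 : k % 2 = 0 := by
    by_contra h
    have : k * (p * s) % 2 = 1 := by rw [Nat.mul_mod, hP, show k % 2 = 1 by omega]
    have := sq_mod q; have := sq_mod r; omega
  obtain ⟨-, -, hk4, -⟩ := odd2 hqr hk hk2
  obtain ⟨k, rfl⟩ := Nat.dvd_of_mod_eq_zero hk2
  obtain ⟨l, rfl⟩ := Nat.dvd_of_mod_eq_zero hl2
  have eight : ∀ {p q r s k l : ℕ}, Nat.Coprime q r → Nat.Coprime p s →
      Nat.Coprime (p * s) (q * r) → q ^ 2 + r ^ 2 = 2 * k * (p * s) →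
      p ^ 2 + s ^ 2 = l * (q * r) → q * r % 2 = 1 → k % 2 = 1 → k % 8 = 1 := by
    intro p q r s k l hqr hps hPQ hk hl hQ hk2
    obtain ⟨h1, h2, h3, h4⟩ := recip hqr hps hPQ hk hl hQ (Dvd.intro_left 2 rfl) hk2
    rw [show (2 * ((2 * k : ℕ) : ℤ)) = 2 * (2 * k) by push_cast; ring, jacobiSym.mul_left,
      jacobiSym.mul_left] at h3
    rcases jac_two h1 with ⟨a1, a2⟩ | ⟨a1, a2⟩ <;> rcases jac_two h2 with ⟨b1, b2⟩ | ⟨b1, b2⟩ <;>
      rw [a2] at h3 <;> rw [b2] at h4 <;> omega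
  have k8 := eight hqr hps hPQ hk hl hQ (by omega)
  have l8 := eight hps hqr hPQ.symm hl hk hP (by omega)
  refine ⟨?_, by omega, by omega⟩
  have p4 := mod_four ((Dvd.intro s rfl).trans (Dvd.intro_left _ hk.symm)) hqr hp
  have s4 := mod_four ((Dvd.intro_left p rfl).trans (Dvd.intro_left _ hk.symm)) hqr hs
  have q4 := mod_four ((Dvd.intro r rfl).trans (Dvd.intro_left _ hl.symm)) hps hq
  have r4 := mod_four ((Dvd.intro_left q rfl).trans (Dvd.intro_left _ hl.symm)) hps hr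
  have key : ∀ p q r s : Fin 8, ∀ k l : Fin 2,
      ((4 * q.1 + 1) ^ 2 + (4 * r.1 + 1) ^ 2) % 32
        = 2 * (8 * k.1 + 1) * ((4 * p.1 + 1) * (4 * s.1 + 1)) % 32 →
      ((4 * p.1 + 1) ^ 2 + (4 * s.1 + 1) ^ 2) % 32
        = 2 * (8 * l.1 + 1) * ((4 * q.1 + 1) * (4 * r.1 + 1)) % 32 → k = l := by
    decide +kernel
  have m32 : ∀ x : ℕ, x % 4 = 1 → ∃ t : Fin 8, x ≡ 4 * t.1 + 1 [MOD 32] := fun x hx =>
    ⟨⟨x % 32 / 4, by omega⟩, by simp only [Nat.ModEq]; omega⟩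
  have m16 : ∀ x : ℕ, x % 8 = 1 → ∃ t : Fin 2, 2 * x ≡ 2 * (8 * t.1 + 1) [MOD 32] := fun x hx =>
    ⟨⟨x % 16 / 8, by omega⟩, by simp only [Nat.ModEq]; omega⟩
  obtain ⟨p', hp'⟩ := m32 p p4
  obtain ⟨q', hq'⟩ := m32 q q4
  obtain ⟨r', hr'⟩ := m32 r r4
  obtain ⟨s', hs'⟩ := m32 s s4
  obtain ⟨k', hk'⟩ := m16 k k8
  obtain ⟨l', hl'⟩ := m16 l l8
  have := key p' q' r' s' k' l'
    (((hq'.pow 2).add (hr'.pow 2)).symm.trans (hk ▸ hk'.mul (hp'.mul hs')))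
    (((hp'.pow 2).add (hs'.pow 2)).symm.trans (hl ▸ hl'.mul (hq'.mul hr')))
  subst this
  have h16 : k % 16 = l % 16 := by simp only [Nat.ModEq] at hk' hl'; omega
  have : k * l % 16 = 1 := by
    rw [Nat.mul_mod, ← h16]
    rcases (by omega : k % 16 = 1 ∨ k % 16 = 9) with h | h <;> rw [h]
  rw [show 2 * k * (2 * l) = 4 * (k * l) by ring]
  omega

end Pool.Agent.MP_110442_nt
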