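import Pool.Agent.MP_110442_nt.Odd

set_option autoImplicit false

open NumberTheorySymbols

namespace Pool.Agent.MP_110442_nt

lemma finE : ∀ x s y t : ZMod 8, 2 * (x + 2 * s) = 2 → 2 * (y + 2 * t) = 2 → 4 * s = 4 * t →
    ZMod.χ₈ (x + -(2 * s)) * ZMod.χ₈ (y + -(2 * t)) * ZMod.χ₈ (-(x * y) + 2 * s * (2 * t))
      * ZMod.χ₈ (x + 2 * s) * ZMod.χ₈ (y + 2 * t) * ZMod.χ₈ x * ZMod.χ₈ y
      * ZMod.χ₈ (1 + 4 * s) = 1 := by
  decide +kernel

lemma half {P : G} {m : ℤ} (h : P * star P = ((2 * m : ℤ) : G)) :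
    ∃ V : G, P = (1 - I) * V ∧ V * star V = (m : G) := by
  have hn := nrm_int h
  obtain ⟨u, hu⟩ : Even (P.re + P.im) := by
    have : Even ((P.re + P.im) ^ 2) := ⟨m + P.re * P.im, by linear_combination hn⟩
    exact (Int.even_pow' (by norm_num)).1 this
  refine ⟨⟨P.re - u, u⟩, ?_, ?_⟩
  · ext
    · simp [I]
    · simp [I]; linear_combination hu
  · rw [nrm]
    congr 1
    refine mul_left_cancel₀ (two_ne_zero' ℤ) ?_
    rw [show P.im = 2 * u - P.re by linear_combination hu] at hn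
    linear_combination hn

lemma alg3 {σ ca cb tx ty K Λ A D B C V : ℤ}
    (W : A * A * (D * D) * (B * B) * (C * C) = 1) (sV : V * V = 1) (sa : ca * ca = 1)
    (sb : cb * cb = 1) (sx : tx * tx = 1) (sy : ty * ty = 1) (ss : σ * σ = 1)
    (F : B * C * K * (A * D * Λ) * (A * ca * D * (B * cb * C) * V) * ca * cb * tx * ty * σ = 1) :
    K * Λ = V * tx * ty * σ := by
  linear_combination (V * tx * ty * σ) * F - (K * Λ) * (V ^ 2 * ca ^ 2 * cb ^ 2 * tx ^ 2 * ty ^ 2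
    * σ ^ 2 * W + ca ^ 2 * cb ^ 2 * tx ^ 2 * ty ^ 2 * σ ^ 2 * sV + cb ^ 2 * tx ^ 2 * ty ^ 2
    * σ ^ 2 * sa + tx ^ 2 * ty ^ 2 * σ ^ 2 * sb + ty ^ 2 * σ ^ 2 * sx + σ ^ 2 * sy + ss)

lemma sq_four (s : ℤ) : s * s % 4 = s % 2 := by
  rcases Int.even_or_odd' s with ⟨t, rfl | rfl⟩
  · rw [show 2 * t * (2 * t) = 4 * (t * t) by ring]; omega
  · rw [show (2 * t + 1) * (2 * t + 1) = 4 * (t * t + t) + 1 by ring]; omega

lemma sq_odd {u : ℤ} (h : u % 2 = 1) : ∃ r, u ^ 2 = 1 + 8 * r := by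
  obtain ⟨t, rfl⟩ : ∃ t, u = 2 * t + 1 := ⟨u / 2, by omega⟩
  obtain ⟨v, hv⟩ := Int.even_mul_succ_self t
  exact ⟨v, by linear_combination 4 * hv⟩

lemma jpow {u s r : ℤ} (E : ℕ) (h0 : 0 < u) (h : (u + 2 * s) % 4 = 1) (hr : u ^ 2 = 1 + 8 * r) :
    J(-2 ^ E | u.natAbs) = sg (s + E * r) := by
  have := c8v (w := 0) hr
  rw [mul_zero, add_zero, add_zero] at this
  rw [← neg_one_mul, jacobiSym.mul_left, jacobiSym.pow_left, c4v h0 h, jtwo (by omega), this,
    sg_pow, sg_add]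

lemma even_main {x' x y' y : ℤ} {k l : ℕ} (hα : 0 < x' + x) (hδ : 0 < x' - x) (hβ : 0 < y' + y)
    (hγ : 0 < y' - y) (o1 : (x' + x) % 2 = 1) (o2 : (y' + y) % 2 = 1)
    (hc : IsCoprime ((x' + x) * (x' - x)) ((y' + y) * (y' - y)))
    (had : IsCoprime (x' + x) (x' - x)) (hbc : IsCoprime (y' + y) (y' - y))
    (hk : x' ^ 2 + x ^ 2 = (y' + y) * (y' - y) * k) (hl : y' ^ 2 + y ^ 2 = (x' + x) * (x' - x) * l)
    (k8 : k % 8 = 1) (l8 : l % 8 = 1) (h16 : k * l % 16 = 1) (h1 : k * l ≠ 1) :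
    ∃ X Y z w : ℤ, (∀ π : ℕ, π.Prime → π ≠ 2 →
        Odd (padicValNat π (4 * (k * l) - 4)) ∨ Odd (padicValNat π (4 * (k * l) + 4)) →
        IsSquare (k : ZMod π)) ∧
      ((4 * (k * l) : ℕ) : ℤ) - 4 = X ^ 2 + Y ^ 2 ∧
      ((4 * (k * l) : ℕ) : ℤ) + 4 = 8 * (z ^ 2 + 16 * w ^ 2) ∧
      (∀ p : ℕ, p.Prime → p ≠ 2 → p ∣ 4 * (k * l) → ∀ j : ZMod p, j ^ 2 = -1 →
        IsSquare ((1 + j) * ((X + j * Y) * (z + 4 * j * w)))) ∧
      ((nonQuartic k (4 * (k * l) - 4) : ℤ)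
        + padicValNat 2 (4 * (k * l) - 4) * (((k : ℤ) - 1) / 8)) % 2 = w % 2 ∧
      ((nonQuartic k (4 * (k * l) + 4) : ℤ) + ((k : ℤ) - 1) / 8) % 2 = w % 2 := by
  have cop : ∀ {u v : ℤ}, IsCoprime (u + v) (u - v) → IsCoprime u v := by
    rintro u v ⟨a, b, h⟩
    exact ⟨a + b, a - b, by linear_combination h⟩
  have cx := cop had
  have cy := cop hbc
  have hx0 : x ≠ 0 := by
    rintro rfl
    have a1 : x' = 1 := by
      rcases Int.isUnit_iff.1 (isCoprime_zero_right.1 cx) with h | h <;> omega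
    subst a1
    have a2 : (y' + y) * ((y' - y) * k) = 1 := by linear_combination -hk
    have a3 := Int.eq_one_of_mul_eq_one_right hβ.le a2
    rw [a3, one_mul] at a2
    have a4 := Int.eq_one_of_mul_eq_one_right hγ.le a2
    rw [a4, one_mul] at a2
    rw [show y' = 1 by omega, show y = 0 by omega] at hl
    exact h1 (by rw [show k = 1 by omega, show l = 1 by omega])
  obtain ⟨A, D, Λ, e1, hA, hD, hΛ, pΛ⟩ := gfac3 ⟨y', -y⟩ cy.neg_right _ _ l hα hδ
    (by simp only; linear_combination hl)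
  obtain ⟨B, C, K, e2, hB, hC, hK, pK⟩ := gfac3 ⟨x', -x⟩ cx.neg_right _ _ k hβ hγ
    (by simp only; linear_combination hk)
  rw [mk_eq] at e1 e2
  have o3 : (x' - x) % 2 = 1 := by omega
  have o4 : (y' - y) % 2 = 1 := by omega
  have f1 := nrm_four hA o1
  have f2 := nrm_four hD o3
  have f3 := nrm_four hB o2
  have f4 := nrm_four hC o4
  obtain ⟨s, rfl⟩ : ∃ s, x = 2 * s := ⟨x / 2, by omega⟩
  obtain ⟨t, rfl⟩ : ∃ t, y = 2 * t := ⟨y / 2, by omega⟩
  have ox : x' % 2 = 1 := by omega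
  have oy : y' % 2 = 1 := by omega
  have hI := I_sq
  have dbl : ∀ {Q : G} {q : ℤ}, Q * star Q = (q : G) →
      (1 + I) * Q * star ((1 + I) * Q) = ((2 * q : ℤ) : G) := by
    intro Q q h
    simp only [star_mul', star_add, star_one, star_I]
    push_cast
    linear_combination (1 - I * I) * h - (q : G) * hI
  obtain ⟨P, M, hP, -, nP, nM, hsq⟩ := mu (k := 2 * k) (l := 2 * l) hα hβ hγ hδ hc had hbc
    (by linear_combination 2 * hk) (by linear_combination 2 * hl) hA hD hB hC (dbl hK) (dbl hΛ)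
    (by push_cast at e1 ⊢; linear_combination (1 + I) * e1 + (2 * t : G) * hI)
    (by push_cast at e2 ⊢; linear_combination (1 + I) * e2 + (2 * s : G) * hI)
  obtain ⟨R, hR⟩ : ∃ R : ℕ, k * l = 1 + 16 * R := ⟨k * l / 16, by omega⟩
  have hR' : (k : ℤ) * l = 1 + 16 * R := by exact_mod_cast hR
  obtain ⟨V2, v2, n2⟩ := half (P := P) (m := 2 * (2 * (1 + 8 * R)))
    (by rw [nP]; congr 1; linear_combination 4 * hR')
  obtain ⟨V1, v1, n1⟩ := half n2
  obtain ⟨V, v0, nV⟩ := half n1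
  have pV : P = (-2 - 2 * I) * V := by
    rw [v2, v1, v0]; linear_combination ((3 - I) * V) * hI
  have h1I : (-2 - 2 * I : G) ≠ 0 := by decide
  have e3 : ((-(x' * y') : ℤ) : G) + I * ((2 * s * (2 * t) : ℤ) : G)
      = star A * D * (star B * C) * V := mul_left_cancel₀ h1I (by
    rw [pV] at hP
    push_cast at hP ⊢
    linear_combination hP - (8 * s * t : G) * hI)
  obtain ⟨z, w, hz, cV, tV⟩ := normal nV
  have oxy : (-(x' * y')) % 2 = 1 := by
    have := Int.odd_iff.1 ((Int.odd_iff.2 ox).mul (Int.odd_iff.2 oy))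
    omega
  have E1 := congrArg chi e1
  have E2 := congrArg chi e2
  have E3 := congrArg chi e3
  rw [chi_odd oy] at E1
  rw [chi_odd ox] at E2
  rw [chi_odd oxy] at E3
  simp only [chi_mul, chi_star hA, chi_star hB] at E1 E2 E3
  have W : chi A * chi A * (chi D * chi D) * (chi B * chi B) * (chi C * chi C) = 1 := by
    rw [chi_sq hA o1, chi_sq hD o3, chi_sq hB o2, chi_sq hC o4]; rfl
  have k4 : k % 4 = 1 := by omega
  have l4 : l % 4 = 1 := by omega
  have cu : ∀ {u v m r : ℤ}, IsCoprime u v → u ^ 2 + v ^ 2 = m * r → IsCoprime m u := by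
    intro u v m r h e
    have := (h.pow_right (n := 2)).add_mul_left_right u
    rw [show v ^ 2 + u * u = m * r by linear_combination e] at this
    exact this.of_mul_right_left.symm
  have cyu := cu cy hl
  have J1 : J(x' + 2 * s | k) = 1 := by
    rw [jstep k4 o1 (B := 1) (e := 2 * y') (f := x' - 2 * s)
      ⟨2 * k * l * (x' - 2 * s) + (x' + 2 * s), by linear_combination -2 * hk + 2 * k * hl⟩
      ((cop_two o1).mul_left cyu.of_mul_left_left.symm) had.symm, jacobiSym.one_left]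
  have J3 : J(y' + 2 * t | l) = 1 := by
    rw [jstep l4 o2 (B := 1) (e := 2 * x') (f := y' - 2 * t)
      ⟨2 * k * l * (y' - 2 * t) + (y' + 2 * t), by linear_combination -2 * hl + 2 * l * hk⟩
      ((cop_two o2).mul_left (cu cx hk).of_mul_left_left.symm) hbc.symm, jacobiSym.one_left]
  have S1 := supp hK k4 pK (T := 2 * x') (S := x' + 2 * s) ⟨-I * (1 + I) * B * C, by
    push_cast at e2 ⊢
    linear_combination -I * (1 + I) * e2 + (x' - 2 * s - 2 * s * I : G) * hI⟩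
  have S2 := supp hK k4 pK (T := x' + 2 * s) (S := 2 * s) ⟨B * C, by
    push_cast at e2 ⊢; linear_combination e2⟩
  have S3 := supp hΛ l4 pΛ (T := 2 * y') (S := y' + 2 * t) ⟨-I * (1 + I) * A * D, by
    push_cast at e1 ⊢
    linear_combination -I * (1 + I) * e1 + (y' - 2 * t - 2 * t * I : G) * hI⟩
  rw [jacobiSym.mul_left, jtwo_one k8, J1, one_mul, one_mul] at S1
  rw [jacobiSym.mul_left, jtwo_one l8, J3, one_mul, one_mul] at S3
  have S4 : J(2 * s | k) = chi K := by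
    have := chi_sq hK (by omega)
    rw [J1] at S2
    linear_combination (-chi K) * S2 - J(2 * s | k) * this
  obtain ⟨e, M₀, hM₀, hE⟩ := Nat.exists_eq_two_pow_mul_odd (show R ≠ 0 by omega)
  have oM := Nat.odd_iff.1 hM₀
  have hE' : (R : ℤ) = 2 ^ e * M₀ := by exact_mod_cast hE
  have hN : 4 * (k * l) - 4 = 2 ^ (e + 6) * M₀ := by
    rw [hR, pow_add, mul_right_comm, ← hE]; omega
  have hN' : ((4 * (k * l) - 4 : ℕ) : ℤ) = M.re ^ 2 + M.im ^ 2 := by
    rw [Nat.cast_sub (by omega), nrm_int nM]; push_cast; ring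
  have M4 : M₀ % 4 = 1 := by
    have := odd_part (e + 6) M.re M.im M₀ (by omega) (by rw [← hN', hN]; push_cast; rfl)
    omega
  have hm : (k : ℤ) * l = 1 + 2 * (2 ^ (e + 3) * M₀) := by rw [hR', hE']; ring
  have p2x : ∀ {u : ℤ}, u % 2 = 1 → IsCoprime ((2 : ℤ) ^ (e + 3)) u := fun h =>
    (cop_two h).pow_left
  have tw := two_ne_zero' ℤ
  obtain ⟨q1, p1⟩ := core (M := M₀) (i := e + 3) (L := k)
    (T := x') (S := y') (u := 2 ^ (e + 3) * ((x' + 2 * s) * (x' - 2 * s))) (b₁ := -2 ^ (e + 3))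
    (b₂ := -2 ^ (e + 3)) (e₁ := 2 ^ (e + 3) * (2 * s)) (e₂ := 2 ^ (e + 3) * (2 * t))
    (f := 1) (w₁ := (2 ^ (e + 3)) ^ 2 * x') (w₂ := 2 ^ (e + 3)) (w₃ := (2 ^ (e + 3)) ^ 2 * y')
    (w₄ := 2 ^ (e + 3)) hN M4 k4 l4 hN' oy
    (mul_left_cancel₀ tw (by
      linear_combination hk - k * hl - ((x' + 2 * s) * (x' - 2 * s)) * hm))
    ((p2x oy).mul_left cyu) (Dvd.intro_left _ rfl)
    (mul_left_cancel₀ tw (by
      linear_combination (2 ^ (e + 3)) * (-hk + k * hl + ((x' + 2 * s) * (x' - 2 * s)) * hm)))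
    ((p2x ox).mul_left cx.symm) isCoprime_one_left
    (mul_left_cancel₀ tw (by
      linear_combination (2 ^ (e + 3)) * (-hl + l * hk + ((y' + 2 * t) * (y' - 2 * t)) * hm)))
    ((p2x oy).mul_left cy.symm)
    ⟨2 * (2 ^ (e + 3)) ^ 3, by linear_combination (2 ^ (e + 3)) ^ 2 * hm⟩ (Or.inl ox)
  obtain ⟨q2, p2⟩ := core (N := 4 * (k * l) + 4) (M := 1 + 8 * R) (c := 3) (i := 0) (L := k)
    (T := 2 * s) (S := y') (u := (x' + 2 * s) * (x' - 2 * s)) (b₁ := 1) (b₂ := -1) (e₁ := x')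
    (e₂ := 2 * t) (f := 1) (w₁ := 2 * s) (w₂ := -1) (w₃ := y') (w₄ := -1) (x := P.re) (y := P.im)
    (by omega) (by omega) k4 l4 (by rw [nrm_int nP]; push_cast; ring) oy
    (mul_left_cancel₀ tw (by
      push_cast; linear_combination hk - k * hl - ((x' + 2 * s) * (x' - 2 * s)) * hR'))
    cyu (Dvd.intro_left _ rfl)
    (mul_left_cancel₀ tw (by
      push_cast; linear_combination hk - k * hl - ((x' + 2 * s) * (x' - 2 * s)) * hR'))
    cx isCoprime_one_left
    (mul_left_cancel₀ tw (by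
      push_cast; linear_combination hl + l * hk + ((y' + 2 * t) * (y' - 2 * t)) * hR'))
    cy.symm ⟨-2, by push_cast; linear_combination -hR'⟩ (Or.inr ⟨hx0, rfl, by omega, k8⟩)
  obtain ⟨rx, hrx⟩ := sq_odd ox
  obtain ⟨ry, hry⟩ := sq_odd oy
  obtain ⟨κ, hκ⟩ : ∃ κ : ℤ, (k : ℤ) = 1 + 8 * κ := ⟨k / 8, by omega⟩
  obtain ⟨μ, hμ⟩ : ∃ μ : ℤ, (l : ℤ) = 1 + 8 * μ := ⟨l / 8, by omega⟩
  have a1 : 8 * rx + 4 * (s * s) = 8 * ry - 4 * (t * t) + 8 * κ + 64 * (κ * ry)
      - 32 * (κ * (t * t)) := by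
    rw [hκ] at hk; linear_combination hk - hrx + (1 + 8 * κ) * hry
  have a2 : -8 * (t * t) + 16 * R + 128 * (R * ry) - 64 * (R * (t * t))
      = 8 * (s * s) + 64 * (μ * (s * s)) := by
    linear_combination -hl - l * hk - ((y' + 2 * t) * (y' - 2 * t)) * hR' - 16 * R * hry
      + 8 * (s * s) * hμ
  have a3 := sq_four s
  have a4 := sq_four t
  have a5 : (4 : ZMod 8) * s = 4 * t := by
    have : ((4 * s : ℤ) : ZMod 8) = ((4 * t : ℤ) : ZMod 8) :=
      (ZMod.intCast_eq_intCast_iff' _ _ _).2 (by push_cast; omega)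
    push_cast at this
    exact this
  have F := finE x' s y' t (by simpa using z8 f1) (by simpa using z8 f3) a5
  have sa := c8sq o1
  have sb := c8sq o2
  have ss := c8sq (a := 1 + 4 * s) (by omega)
  have b1 := c8v (w := 0) hrx
  have b2 := c8v (w := 0) hry
  have b3 := c8v (u := 1) (r := 0) (w := s) (by norm_num)
  rw [mul_zero, add_zero, add_zero] at b1 b2
  push_cast at E1 E2 E3 sa sb ss b3
  rw [E1, E2, E3] at F
  have KL := alg3 W (chi_sq nV (by omega)) sa sb (c8sq ox) (c8sq oy) ss F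
  rw [cV, b1, b2, b3, ← sg_add, ← sg_add, ← sg_add] at KL
  rw [jpow _ (by omega) f1 hrx, jpow _ (by omega) f3 hry, S1, S3, mul_assoc, KL, ← sg_add,
    ← sg_add] at p1
  rw [jacobiSym.one_left, one_mul, c4v (by omega) f3, S4, S3, mul_assoc, KL, ← sg_add] at p2
  have g1 := sg_par p1
  have g2 := sg_par p2
  have hv : padicValNat 2 (4 * (k * l) - 4) = e + 6 := by
    rw [hN, padicValNat.mul (by positivity) (by omega), padicValNat.prime_pow,
      padicValNat.eq_zero_of_not_dvd (by omega)]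
  have sqc : ∀ (p : ℕ), p.Prime → p ≠ 2 → p ∣ 4 * (k * l) → ∀ j : ZMod p, j ^ 2 = -1 →
      IsSquare ((1 + j) * ((M.re + j * M.im) * (V.re + j * V.im))) := by
    intro p hp h2 hd j hj
    have := Fact.mk hp
    obtain ⟨r, hr⟩ := hsq p hp (by
      rw [show 2 * (k : ℤ) * (2 * l) = ((4 * (k * l) : ℕ) : ℤ) by push_cast; ring]
      exact_mod_cast hd) j hj
    have c1 : P.re = -2 * V.re + 2 * V.im := by rw [pV]; simp [I]
    have c2 : P.im = -2 * V.re - 2 * V.im := by rw [pV]; simp [I]; ring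
    rw [c1, c2] at hr
    push_cast at hr
    have c3 : (2 : ZMod p) ≠ 0 := fun h => h2 ((Nat.prime_dvd_prime_iff_eq hp Nat.prime_two).1
      ((ZMod.natCast_eq_zero_iff 2 p).1 (by exact_mod_cast h)))
    have c4 : 1 - j ≠ 0 := fun h => c3 (by linear_combination hj + (1 + j) * h)
    refine ⟨r / (1 - j), ?_⟩
    field_simp
    linear_combination hr + ((1 + j) * (M.re + j * M.im) * (V.re + j * V.im)
      - 2 * j * V.im * (M.re + j * M.im)) * hj
  have last : ((nonQuartic k (4 * (k * l) - 4) : ℤ)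
        + padicValNat 2 (4 * (k * l) - 4) * (((k : ℤ) - 1) / 8)) % 2 = w % 2 ∧
      ((nonQuartic k (4 * (k * l) + 4) : ℤ) + ((k : ℤ) - 1) / 8) % 2 = w % 2 := by
    obtain ⟨c, hc⟩ : ∃ c, κ = rx + ry + s + 2 * c := ⟨(κ - rx - ry - s) / 2, by omega⟩
    have d1 : ((e + 6 : ℕ) : ℤ) * κ = e * rx + e * ry + e * s + 2 * (e * c + 3 * κ) := by
      push_cast; linear_combination e * hc
    have d2 : (e * s : ℤ) % 2 = 0 := by
      rcases Nat.eq_zero_or_pos e with h | h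
      · simp [h]
      · have : (2 : ℤ) ∣ R := hE' ▸ (dvd_pow_self 2 h.ne').mul_right _
        exact Int.emod_eq_zero_of_dvd (Dvd.dvd.mul_left (by omega) _)
    have d3 : ((e + 3 : ℕ) : ℤ) * rx = e * rx + 3 * rx := by push_cast; ring
    have d4 : ((e + 3 : ℕ) : ℤ) * ry = e * ry + 3 * ry := by push_cast; ring
    rw [hv, show ((k : ℤ) - 1) / 8 = κ by omega, d1]
    rw [d3, d4] at g1
    omega
  have hz' : ((4 * (k * l) : ℕ) : ℤ) + 4 = 8 * (z ^ 2 + 16 * w ^ 2) := by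
    push_cast; linear_combination 4 * hR' - 8 * hz
  have hq : ∀ π : ℕ, π.Prime → π ≠ 2 →
      Odd (padicValNat π (4 * (k * l) - 4)) ∨ Odd (padicValNat π (4 * (k * l) + 4)) →
      IsSquare (k : ZMod π) := fun π h1 h2 h3 => h3.elim (q1 π h1 h2) (q2 π h1 h2)
  have hM := nrm_int nM
  rcases tV with ⟨-, c1, c2⟩ | ⟨-, c1, c2⟩
  · refine ⟨M.re, M.im, z, w, hq, by push_cast; linear_combination -hM, hz', ?_, last⟩
    intro p hp h2 hd j hj
    have := sqc p hp h2 hd j hj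
    rw [c1, c2] at this
    convert this using 2
    push_cast; ring
  · refine ⟨-M.im, M.re, z, w, hq, by push_cast; linear_combination -hM, hz', ?_, last⟩
    intro p hp h2 hd j hj
    have := sqc p hp h2 hd j hj
    rw [c1, c2] at this
    convert this using 2
    push_cast
    linear_combination (4 * w * M.re - M.im * z : ZMod p) * hj

end Pool.Agent.MP_110442_nt
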