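import Mathlib.Data.Set.Card
import Mathlib.Data.Nat.Prime.Defs
import Mathlib.Data.Nat.MaxPowDiv

set_option autoImplicit false

namespace Pool.Agent.MP_110442_nt

/-- The number of odd primes `π` that divide `N` to an odd exponent and modulo which `L` is not a
fourth power. -/
noncomputable def nonQuartic (L N : ℕ) : ℕ :=
  Set.ncard {π : ℕ | π.Prime ∧ π ≠ 2 ∧ Odd (padicValNat π N) ∧
    ¬ ∃ t : ZMod π, t ^ 4 = (L : ZMod π)}

end Pool.Agent.MP_110442_nt
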