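import Mathlib.NumberTheory.Zsqrtd.GaussianInt
import Pool.Agent.MP_110442_nt.Basic

set_option autoImplicit false

open NumberTheorySymbols

namespace Pool.Agent.MP_110442_nt

abbrev G := GaussianInt

/-- The imaginary unit. -/
def I : G := ⟨0, 1⟩

lemma I_sq : I * I = -1 := by decide

lemma star_I : star I = -I := by decide

lemma mk_eq (x y : ℤ) : (⟨x, y⟩ : G) = x + I * y := by
  ext <;> simp [I]

lemma nrm (u : G) : u * star u = ((u.re ^ 2 + u.im ^ 2 : ℤ) : G) := by
  ext
  · simp only [Zsqrtd.re_mul, Zsqrtd.re_star, Zsqrtd.im_star, Zsqrtd.re_intCast]; ring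
  · simp only [Zsqrtd.im_mul, Zsqrtd.re_star, Zsqrtd.im_star, Zsqrtd.im_intCast]; ring

lemma prim_of_mul {z u w : G} (h : IsCoprime z.re z.im) (e : z = u * w) :
    IsCoprime w.re w.im := by
  obtain ⟨a, b, hab⟩ := h
  refine ⟨a * u.re + b * u.im, b * u.re - a * u.im, ?_⟩
  rw [e] at hab
  simp only [Zsqrtd.re_mul, Zsqrtd.im_mul] at hab
  linear_combination hab

lemma gfac (z : G) (h : IsCoprime z.re z.im) (a m : ℤ) (ha : 0 < a)
    (e : z * star z = ((a * m : ℤ) : G)) :
    ∃ u w : G, z = u * w ∧ u * star u = (a : G) ∧ w * star w = (m : G) := by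
  set g := EuclideanDomain.gcd (a : G) z with hg
  have hab := EuclideanDomain.gcd_eq_gcd_ab (a : G) z
  rw [← hg] at hab
  obtain ⟨a', ha'⟩ : g ∣ (a : G) := EuclideanDomain.gcd_dvd_left _ _
  obtain ⟨w, hw⟩ : g ∣ z := EuclideanDomain.gcd_dvd_right _ _
  set U := EuclideanDomain.gcdA (a : G) z
  set V := EuclideanDomain.gcdB (a : G) z
  have ha0 : (a : G) ≠ 0 := by exact_mod_cast ha.ne'
  have hg0 : g ≠ 0 := by
    intro h0; rw [h0, zero_mul] at ha'; exact ha0 ha'
  obtain ⟨T, hT⟩ : ∃ T : G, g * star g = a * T := by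
    refine ⟨a * U * star U + U * star z * star V + z * V * star U + m * V * star V, ?_⟩
    have h2 : star g = a * star U + star z * star V := by
      rw [hab]; simp
    rw [h2]
    nth_rewrite 1 [hab]
    push_cast at e
    linear_combination (V * star V) * e
  have hT2 := hT
  rw [nrm] at hT2
  have him : T.im = 0 := by
    have := congrArg Zsqrtd.im hT2
    simp only [Zsqrtd.im_intCast, Zsqrtd.im_mul, Zsqrtd.re_intCast, zero_mul, add_zero] at this
    exact (mul_eq_zero.1 this.symm).resolve_left ha.ne'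
  have hre : g.re ^ 2 + g.im ^ 2 = a * T.re := by
    have := congrArg Zsqrtd.re hT2
    simpa only [Zsqrtd.im_intCast, Zsqrtd.re_mul, Zsqrtd.re_intCast, mul_zero, zero_mul,
      add_zero] using this
  have hTe : T = (T.re : G) := by ext <;> simp [him]
  have h3 : star g = a' * T := by
    apply mul_left_cancel₀ hg0
    rw [hT, ha']; ring
  have h4 : z = (star a' * w) * (T.re : G) := by
    have : g = star a' * (T.re : G) := by
      have := congrArg star h3
      rw [star_star, hTe] at this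
      rw [this]; simp [mul_comm]
    rw [hw]
    nth_rewrite 1 [this]
    ring
  have h5 := prim_of_mul h h4
  simp only [Zsqrtd.re_intCast, Zsqrtd.im_intCast, isCoprime_zero_right] at h5
  have h6 : T.re = 1 := by
    rcases Int.isUnit_iff.1 h5 with h | h
    · exact h
    · rw [h] at hre; nlinarith [sq_nonneg g.re, sq_nonneg g.im]
  have h7 : g * star g = (a : G) := by rw [hT, hTe, h6]; simp
  refine ⟨g, w, hw, h7, ?_⟩
  apply mul_left_cancel₀ ha0
  rw [hw, star_mul] at e
  push_cast at e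
  linear_combination e - (w * star w) * h7

lemma gfac3 (z : G) (h : IsCoprime z.re z.im) (a d m : ℤ) (ha : 0 < a) (hd : 0 < d)
    (e : z.re ^ 2 + z.im ^ 2 = a * d * m) :
    ∃ u v w : G, z = u * v * w ∧ u * star u = (a : G) ∧ v * star v = (d : G) ∧
      w * star w = (m : G) ∧ IsCoprime w.re w.im := by
  obtain ⟨u, t, h1, h2, h3⟩ := gfac z h a (d * m) ha (by rw [nrm, e, mul_assoc])
  have h4 := prim_of_mul h h1
  obtain ⟨v, w, h5, h6, h7⟩ := gfac t h4 d m hd h3
  exact ⟨u, v, w, by rw [h1, h5, mul_assoc], h2, h6, h7, prim_of_mul h4 h5⟩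

/-- A two-adic character on pairs of residues. -/
def c8 (x y : ZMod 8) : ℤ := if x.val % 2 = 0 then ZMod.χ₈ (y - x) else ZMod.χ₈ (x + y)

lemma c8_mul : ∀ x y u v : ZMod 8,
    c8 (x * u + -1 * y * v) (x * v + y * u) = c8 x y * c8 u v := by decide +kernel

lemma c8_star : ∀ x y : ZMod 8, c8 x (-y) = c8 x y * ZMod.χ₈ (x ^ 2 + y ^ 2) := by
  decide +kernel

lemma c8_sq : ∀ x y : ZMod 8, (x ^ 2 + y ^ 2).val % 2 = 1 → c8 x y * c8 x y = 1 := by
  decide +kernel

/-- The character on Gaussian integers. -/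
def chi (u : G) : ℤ := c8 u.re u.im

lemma chi_mul (u v : G) : chi (u * v) = chi u * chi v := by
  simp only [chi, Zsqrtd.re_mul, Zsqrtd.im_mul]
  push_cast
  exact c8_mul _ _ _ _

lemma nrm_int {u : G} {a : ℤ} (h : u * star u = (a : G)) : u.re ^ 2 + u.im ^ 2 = a := by
  rw [nrm] at h; exact_mod_cast h

lemma chi_star {u : G} {a : ℤ} (h : u * star u = (a : G)) :
    chi (star u) = chi u * ZMod.χ₈ (a : ZMod 8) := by
  simp only [chi, Zsqrtd.re_star, Zsqrtd.im_star, ← nrm_int h]
  push_cast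
  exact c8_star _ _

lemma val_two (a : ℤ) : ((a : ZMod 8).val : ℤ) % 2 = a % 2 := by
  rw [ZMod.val_intCast]; push_cast; omega

lemma chi_sq {u : G} {a : ℤ} (h : u * star u = (a : G)) (ha : a % 2 = 1) :
    chi u * chi u = 1 := by
  apply c8_sq
  have := val_two a
  rw [← nrm_int h] at this
  push_cast at this
  rw [nrm_int h] at this
  omega

end Pool.Agent.MP_110442_nt
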