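import Mathlib.NumberTheory.SumTwoSquares
import Pool.Agent.MP_110442_nt.Gauss
import Pool.Agent.MP_110442_nt.Defs

-- ======== part 0: formerly Pool.Agent.MP_110442_nt.Jac
section MrgPart0

set_option autoImplicit false

open NumberTheorySymbols

namespace Pool.Agent.MP_110442_nt

lemma jneg {N : ℕ} (hN : N % 4 = 1) (t : ℤ) : J(-t | N) = J(t | N) := by
  rw [jacobiSym.neg _ (Nat.odd_iff.2 (by omega)), ZMod.χ₄_nat_one_mod_four hN, one_mul]

lemma jswap {N : ℕ} (hN : N % 4 = 1) {t : ℤ} (ht : t % 2 = 1) : J(t | N) = J(N | t.natAbs) := by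
  rw [jacobiSym.quadratic_reciprocity_one_mod_four hN (Nat.odd_iff.2 (by omega))]
  rcases Int.natAbs_eq t with h | h
  · rw [← h]
  · rw [← jneg hN, show -t = t.natAbs by omega]

lemma jcong {M : ℕ} {A B e f : ℤ} (h : (M : ℤ) ∣ A * e ^ 2 - B * f ^ 2) (he : IsCoprime e M)
    (hf : IsCoprime f M) : J(A | M) = J(B | M) := by
  have h1 : J(A * e ^ 2 | M) = J(B * f ^ 2 | M) :=
    jacobiSym.mod_left' (Int.ModEq.symm (Int.modEq_iff_dvd.2 h))
  rwa [jacobiSym.mul_left, jacobiSym.mul_left,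
    jacobiSym.sq_one' (Int.isCoprime_iff_gcd_eq_one.1 he),
    jacobiSym.sq_one' (Int.isCoprime_iff_gcd_eq_one.1 hf), mul_one, mul_one] at h1

lemma cop_abs {e t : ℤ} (h : IsCoprime e t) : IsCoprime e (t.natAbs : ℤ) := by
  rw [Int.natCast_natAbs]; exact h.abs_right

/-- Reciprocity step for an odd integer `t`. -/
lemma jstep {N : ℕ} (hN : N % 4 = 1) {t B e f : ℤ} (ht : t % 2 = 1)
    (h : t ∣ N * e ^ 2 - B * f ^ 2) (he : IsCoprime e t) (hf : IsCoprime f t) :
    J(t | N) = J(B | t.natAbs) := by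
  rw [jswap hN ht]
  exact jcong (Int.natAbs_dvd.2 h) (cop_abs he) (cop_abs hf)

lemma jtwo {t : ℤ} (ht : t % 2 = 1) : J(2 | t.natAbs) = ZMod.χ₈ (t : ZMod 8) := by
  rw [jacobiSym.at_two (Nat.odd_iff.2 (by omega))]
  rcases Int.natAbs_eq t with h | h
  · rw [h]; simp
  · rw [h]
    have : ∀ x : ZMod 8, ZMod.χ₈ x = ZMod.χ₈ (-x) := by decide
    rw [Int.natAbs_neg, Int.natAbs_natCast, Int.cast_neg, Int.cast_natCast, ← this]

lemma jtwo_one {N : ℕ} (hN : N % 8 = 1) : J(2 | N) = 1 := by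
  rcases jac_two (show N % 4 = 1 by omega) with h | h
  · exact h.2
  · omega

/-- Reciprocity step for any nonzero integer `t` and moduli `1 mod 8`. -/
lemma jstep8 {N m : ℕ} (hN : N % 8 = 1) (hm : m % 8 = 1) {t e f : ℤ} (ht : t ≠ 0)
    (h : t ∣ N * e ^ 2 - m * f ^ 2) (he : IsCoprime e t) (hf : IsCoprime f t) :
    J(t | N) = J(t | m) := by
  obtain ⟨v, s, hs, e1⟩ := Nat.exists_eq_two_pow_mul_odd (Int.natAbs_ne_zero.2 ht)
  have hs2 : (s : ℤ) % 2 = 1 := by have := Nat.odd_iff.1 hs; omega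
  have hd : (s : ℤ) ∣ t := Int.natCast_dvd.2 ⟨2 ^ v, by rw [e1, mul_comm]⟩
  have key : ∀ M : ℕ, M % 8 = 1 → J(t | M) = J(s | M) := by
    intro M hM
    have : J(t | M) = J(t.natAbs | M) := by
      rcases Int.natAbs_eq t with h | h
      · rw [← h]
      · rw [← jneg (show M % 4 = 1 by omega), show -t = t.natAbs by omega]
    rw [this, e1]
    push_cast
    rw [jacobiSym.mul_left, jacobiSym.pow_left, jtwo_one hM, one_pow, one_mul]
  rw [key N hN, key m hm, jstep (by omega) hs2 (hd.trans h) (he.of_isCoprime_of_dvd_right hd)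
    (hf.of_isCoprime_of_dvd_right hd), jswap (show m % 4 = 1 by omega) hs2]

lemma int_dvd {K : G} {k m : ℤ} (hK : K * star K = (k : G)) (hp : IsCoprime K.re K.im)
    (h : K ∣ (m : G)) : k ∣ m := by
  obtain ⟨W, hW⟩ := h
  have h1 : (m : G) * star K = k * W := by rw [hW, ← hK]; ring
  have h2 := congrArg Zsqrtd.re h1
  have h3 := congrArg Zsqrtd.im h1
  simp only [Zsqrtd.re_mul, Zsqrtd.im_mul, Zsqrtd.re_intCast, Zsqrtd.im_intCast, Zsqrtd.re_star,
    Zsqrtd.im_star] at h2 h3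
  obtain ⟨a, b, hab⟩ := hp
  exact ⟨a * W.re - b * W.im, by linear_combination (-m) * hab + a * h2 - b * h3⟩

/-- The supplementary law for `1 + i`. -/
lemma supp {K : G} {k : ℕ} (hK : K * star K = ((k : ℤ) : G)) (hk : k % 4 = 1)
    (hp : IsCoprime K.re K.im) {T S : ℤ} (h : K ∣ (T : G) - (1 + I) * S) :
    J(T | k) = J(S | k) * chi K := by
  have hn := nrm_int hK
  have main : ∀ o e : ℤ, o % 2 = 1 → e % 2 = 0 → IsCoprime o e → o ^ 2 + e ^ 2 = k →
      (k : ℤ) ∣ o * T - S * (o + e) → J(T | k) = J(S | k) * ZMod.χ₈ ((o + e : ℤ) : ZMod 8) := by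
    intro o e ho he hoe hk2 hd
    have h1 : J(o * T | k) = J(S * (o + e) | k) :=
      jacobiSym.mod_left' (Int.ModEq.symm (Int.modEq_iff_dvd.2 hd))
    have h2 : J(o | k) = 1 := by
      rw [jstep hk ho (B := 1) (e := 1) (f := e) ⟨o, by linear_combination -hk2⟩
        isCoprime_one_left hoe.symm, jacobiSym.one_left]
    have h3 : J(o + e | k) = ZMod.χ₈ ((o + e : ℤ) : ZMod 8) := by
      rw [jstep hk (t := o + e) (by omega) (B := 2) (e := 1) (f := e)
        ⟨o - e, by linear_combination -hk2⟩ isCoprime_one_left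
        (by simpa using hoe.symm.add_mul_left_right 1), jtwo (by omega)]
    rwa [jacobiSym.mul_left, jacobiSym.mul_left, h2, h3, one_mul] at h1
  have hKe : K = K.re + I * K.im := mk_eq K.re K.im
  have hpar : (K.re % 2 = 1 ∧ K.im % 2 = 0) ∨ (K.re % 2 = 0 ∧ K.im % 2 = 1) := by
    have : (K.re ^ 2 + K.im ^ 2) % 2 = 1 := by omega
    rcases Int.emod_two_eq_zero_or_one K.re with a | a <;>
      rcases Int.emod_two_eq_zero_or_one K.im with b | b <;>
      simp [pow_two, Int.add_emod, Int.mul_emod, a, b] at this ⊢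
  have hv := val_two K.re
  obtain ⟨W, hW⟩ := h
  rcases hpar with ⟨a, b⟩ | ⟨a, b⟩
  · rw [main K.re K.im a b hp hn (int_dvd hK hp ⟨K.re * W + I * S, ?_⟩), chi, c8,
      if_neg (by omega)]
    · push_cast; rfl
    · push_cast
      linear_combination (K.re : G) * hW - (I * S) * hKe - (K.im * S : G) * I_sq
  · rw [main K.im (-K.re) b (by omega) hp.symm.neg_right (by linear_combination hn)
      (int_dvd hK hp ⟨K.im * W + S, ?_⟩), chi, c8, if_pos (by omega)]
    · push_cast; rw [sub_eq_add_neg]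
    · push_cast
      linear_combination (K.im : G) * hW - (S : G) * hKe

lemma jac_prod (a : ℤ) (M : ℕ) (hM : M ≠ 0) (h : IsCoprime a M) :
    J(a | M) = ∏ p ∈ M.primeFactors.filter (fun p => Odd (M.factorization p)), J(a | p) := by
  have h1 : ∀ s : Finset ℕ, (∀ p ∈ s, p ≠ 0) → ∀ f : ℕ → ℕ,
      J(a | ∏ p ∈ s, p ^ f p) = ∏ p ∈ s, J(a | p) ^ f p := by
    intro s
    induction s using Finset.induction_on with
    | empty => intro _ _; simp
    | insert p s hp ih =>
      intro h0 f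
      have hs : ∀ q ∈ s, q ≠ 0 := fun q hq => h0 q (Finset.mem_insert_of_mem hq)
      rw [Finset.prod_insert hp, Finset.prod_insert hp, jacobiSym.mul_right' _
        (pow_ne_zero _ (h0 p (Finset.mem_insert_self _ _)))
        (Finset.prod_ne_zero_iff.2 fun q hq => pow_ne_zero _ (hs q hq)), ih hs,
        jacobiSym.pow_right]
  conv_lhs => rw [← Nat.prod_factorization_pow_eq_self hM]
  rw [Finsupp.prod, Nat.support_factorization,
    h1 _ (fun p hp => (Nat.prime_of_mem_primeFactors hp).ne_zero), Finset.prod_filter]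
  refine Finset.prod_congr rfl fun p hp => ?_
  have hc : IsCoprime a p := h.of_isCoprime_of_dvd_right
    (Int.natCast_dvd_natCast.2 (Nat.dvd_of_mem_primeFactors hp))
  have h2 := jacobiSym.eq_one_or_neg_one (Int.isCoprime_iff_gcd_eq_one.1 hc)
  split_ifs with ho
  · rcases h2 with h2 | h2 <;> rw [h2]
    · simp
    · exact ho.neg_one_pow
  · rcases h2 with h2 | h2 <;> rw [h2]
    · simp
    · exact (Nat.not_odd_iff_even.1 ho).neg_one_pow

lemma count {L N N₀ c g : ℕ} {t s x y : ℤ} (hN : N = 2 ^ c * g ^ 2 * N₀) (hN0 : N ≠ 0)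
    (ho : N₀ % 2 = 1) (hxy : (N : ℤ) = x ^ 2 + y ^ 2) (h : (N₀ : ℤ) ∣ t ^ 2 - L * s ^ 2)
    (ht : IsCoprime t N₀) (hs : IsCoprime s N₀) :
    (∀ π : ℕ, π.Prime → π ≠ 2 → Odd (padicValNat π N) → IsSquare (L : ZMod π)) ∧
      (-1 : ℤ) ^ nonQuartic L N = J(t * s | N₀) := by
  classical
  have hg : g ≠ 0 := by rintro rfl; simp at hN; exact hN0 hN
  have hM : N₀ ≠ 0 := by omega
  have hv : ∀ π : ℕ, π.Prime → π ≠ 2 → (Odd (padicValNat π N) ↔ Odd (N₀.factorization π)) := by
    intro π hπ h2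
    rw [← Nat.factorization_def _ hπ, hN, Nat.factorization_mul (by positivity) hM,
      Nat.factorization_mul (by positivity) (by positivity), Nat.factorization_pow,
      Nat.factorization_pow, Nat.prime_two.factorization]
    simp only [Finsupp.add_apply, Finsupp.smul_apply, Finsupp.single_apply, if_neg h2.symm,
      smul_eq_mul, mul_zero, zero_add, Nat.odd_iff]
    omega
  have hq : ∀ π : ℕ, π.Prime → π ∣ N₀ → (t : ZMod π) ≠ 0 ∧ (s : ZMod π) ≠ 0 ∧
      (t : ZMod π) ^ 2 = L * (s : ZMod π) ^ 2 := by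
    intro π hπ hd
    have hd' : (π : ℤ) ∣ N₀ := Int.natCast_dvd_natCast.2 hd
    have nz : ∀ r : ℤ, IsCoprime r N₀ → (r : ZMod π) ≠ 0 := fun r hr h0 =>
      (Nat.prime_iff_prime_int.1 hπ).not_isUnit
        (hr.isUnit_of_dvd' ((ZMod.intCast_zmod_eq_zero_iff_dvd _ _).1 h0) hd')
    refine ⟨nz t ht, nz s hs, ?_⟩
    have := (ZMod.intCast_zmod_eq_zero_iff_dvd _ _).2 (hd'.trans h)
    push_cast at this
    linear_combination this
  have dv : ∀ π : ℕ, Odd (N₀.factorization π) → π ∣ N₀ := fun π h =>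
    Nat.dvd_of_factorization_pos h.pos.ne'
  constructor
  · intro π hπ h2 hodd
    have := Fact.mk hπ
    obtain ⟨-, h3, h4⟩ := hq π hπ (dv π ((hv π hπ h2).1 hodd))
    exact ⟨t / s, by field_simp; linear_combination -h4⟩
  set S := N₀.primeFactors.filter (fun p => Odd (N₀.factorization p)) with hS
  have e1 : nonQuartic L N = (S.filter fun π => ¬ ∃ r : ZMod π, r ^ 4 = (L : ZMod π)).card := by
    rw [nonQuartic, ← Set.ncard_coe_finset]
    congr 1
    ext π
    simp only [hS, Set.mem_ofPred_eq, Finset.coe_filter, Finset.mem_filter, Nat.mem_primeFactors]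
    constructor
    · rintro ⟨a, b, c, d⟩
      exact ⟨⟨⟨a, dv π ((hv π a b).1 c), hM⟩, (hv π a b).1 c⟩, d⟩
    · rintro ⟨⟨⟨a, b, -⟩, c⟩, d⟩
      have : π ≠ 2 := by rintro rfl; omega
      exact ⟨a, this, (hv π a this).2 c, d⟩
  rw [e1, jac_prod _ _ hM (ht.mul_left hs), ← Finset.prod_const, Finset.prod_filter]
  refine Finset.prod_congr rfl fun π hπ => ?_
  obtain ⟨h1, hodd⟩ := Finset.mem_filter.1 hπ
  have hp := Nat.prime_of_mem_primeFactors h1
  have hd := Nat.dvd_of_mem_primeFactors h1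
  have h2 : π ≠ 2 := by rintro rfl; omega
  have := Fact.mk hp
  obtain ⟨h3, h4, h5⟩ := hq π hp hd
  have h6 : π % 4 ≠ 3 := by
    intro h7
    have h8 : ∃ a b : ℕ, N = a ^ 2 + b ^ 2 :=
      ⟨x.natAbs, y.natAbs, by zify; simpa only [sq_abs] using hxy⟩
    have := Nat.eq_sq_add_sq_iff.1 h8 π (Nat.mem_primeFactors.2
      ⟨hp, hN ▸ hd.mul_left _, hN0⟩) h7
    exact (Nat.not_odd_iff_even.2 this) ((hv π hp h2).2 hodd)
  obtain ⟨j, hj⟩ := ZMod.exists_sq_eq_neg_one_iff.2 h6
  have hts : ((t * s : ℤ) : ZMod π) ≠ 0 := by push_cast; exact mul_ne_zero h3 h4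
  rw [← jacobiSym.legendreSym.to_jacobiSym]
  split_ifs with h7
  · obtain ⟨r, hr⟩ := h7
    symm
    rw [legendreSym.eq_one_iff π hts]
    push_cast
    have : ((t : ZMod π) - r ^ 2 * s) * (t + r ^ 2 * s) = 0 := by
      linear_combination h5 - (s : ZMod π) ^ 2 * hr
    rcases mul_eq_zero.1 this with h | h
    · exact ⟨r * s, by linear_combination (s : ZMod π) * h⟩
    · exact ⟨j * r * s, by linear_combination (s : ZMod π) * h + (r * s) ^ 2 * hj⟩
  · symm
    rw [legendreSym.eq_neg_one_iff]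
    rintro ⟨r, hr⟩
    push_cast at hr
    refine h7 ⟨r / s, ?_⟩
    field_simp
    linear_combination (-(r ^ 2) - t * s) * hr + (s : ZMod π) ^ 2 * h5

end Pool.Agent.MP_110442_nt

end MrgPart0

-- ======== part 1: formerly Pool.Agent.MP_110442_nt.Mu
section MrgPart1

set_option autoImplicit false

namespace Pool.Agent.MP_110442_nt

lemma cop_cast {a b : ℤ} (h : IsCoprime a b) : IsCoprime (a : G) (b : G) := by
  simpa using h.map (Int.castRingHom G)

lemma mu {α β γ δ k l : ℤ} {A D B C K L : G} (hα : 0 < α) (hβ : 0 < β) (hγ : 0 < γ) (hδ : 0 < δ)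
    (hc : IsCoprime (α * δ) (β * γ)) (had : IsCoprime α δ) (hbc : IsCoprime β γ)
    (hk : α ^ 2 + δ ^ 2 = k * (β * γ)) (hl : β ^ 2 + γ ^ 2 = l * (α * δ))
    (hA : A * star A = (α : G)) (hD : D * star D = (δ : G)) (hB : B * star B = (β : G))
    (hC : C * star C = (γ : G)) (hK : K * star K = (k : G)) (hL : L * star L = (l : G))
    (e1 : (β : G) + I * γ = A * D * L) (e2 : (α : G) + I * δ = B * C * K) :
    ∃ P M : G, (α : G) * β + γ * δ + I * (α * γ + β * δ) = star A * D * (star B * C) * P ∧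
      (α : G) * β - γ * δ + I * (α * γ - β * δ) = star A * D * (B * star C) * M ∧
      P * star P = ((k * l + 4 : ℤ) : G) ∧ M * star M = ((k * l - 4 : ℤ) : G) ∧
      ∀ p : ℕ, p.Prime → (p : ℤ) ∣ k * l → ∀ j : ZMod p, j ^ 2 = -1 →
        IsSquare (j * (P.re + j * P.im) * (M.re + j * M.im)) := by
  have e1' : (β : G) - I * γ = star A * star D * star L := by
    have := congrArg star e1
    simp only [star_add, star_mul', star_intCast, star_I] at this
    linear_combination this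
  have e2' : (α : G) - I * δ = star B * star C * star K := by
    have := congrArg star e2
    simp only [star_add, star_mul', star_intCast, star_I] at this
    linear_combination this
  have hI := I_sq
  have c0 := cop_cast hc
  push_cast at c0
  rw [← hA, ← hD, ← hB, ← hC] at c0
  have c1 : IsCoprime (star A * D) (star B * C) :=
    (c0.of_isCoprime_of_dvd_left ⟨A * star D, by ring⟩).of_isCoprime_of_dvd_right
      ⟨B * star C, by ring⟩
  have c2 : IsCoprime (star A * D) (B * star C) :=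
    (c0.of_isCoprime_of_dvd_left ⟨A * star D, by ring⟩).of_isCoprime_of_dvd_right
      ⟨star B * C, by ring⟩
  have f1 : (α : G) * β + γ * δ + I * (α * γ + β * δ)
      = star A * D * (L * A ^ 2 + I * star L * star D ^ 2) := by
    linear_combination (α : G) * e1 + I * δ * e1' - (A * D * L) * hA
      - (I * star A * star D * star L) * hD + (γ * δ : G) * hI
  have f2 : (α : G) * β + γ * δ + I * (α * γ + β * δ)
      = star B * C * (K * B ^ 2 + I * star K * star C ^ 2) := by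
    linear_combination (β : G) * e2 + I * γ * e2' - (B * C * K) * hB
      - (I * star B * star C * star K) * hC + (γ * δ : G) * hI
  have f3 : (α : G) * β - γ * δ + I * (α * γ - β * δ)
      = star A * D * (L * A ^ 2 - I * star L * star D ^ 2) := by
    linear_combination (α : G) * e1 - I * δ * e1' - (A * D * L) * hA
      + (I * star A * star D * star L) * hD - (γ * δ : G) * hI
  have f4 : (α : G) * β - γ * δ + I * (α * γ - β * δ)
      = B * star C * (star K * star B ^ 2 + I * K * C ^ 2) := by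
    linear_combination (β : G) * e2' + I * γ * e2 - (star B * star C * star K) * hB
      - (I * B * C * K) * hC - (γ * δ : G) * hI
  obtain ⟨P, hP⟩ := c1.mul_dvd ⟨_, f1⟩ ⟨_, f2⟩
  obtain ⟨M, hM⟩ := c2.mul_dvd ⟨_, f3⟩ ⟨_, f4⟩
  have nz : ∀ {u : G} {a : ℤ}, u * star u = (a : G) → 0 < a → u ≠ 0 ∧ star u ≠ 0 := by
    intro u a h ha
    have : (a : G) ≠ 0 := by exact_mod_cast ha.ne'
    rw [← h] at this
    exact mul_ne_zero_iff.1 this
  have nAD := mul_ne_zero (nz hA hα).2 (nz hD hδ).1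
  have nBC := mul_ne_zero (nz hB hβ).2 (nz hC hγ).1
  have nBC' := mul_ne_zero (nz hB hβ).1 (nz hC hγ).2
  have g1 : L * A ^ 2 + I * star L * star D ^ 2 = star B * C * P :=
    mul_left_cancel₀ nAD (by rw [← f1, hP]; ring)
  have g2 : L * A ^ 2 - I * star L * star D ^ 2 = B * star C * M :=
    mul_left_cancel₀ nAD (by rw [← f3, hM]; ring)
  have g3 : K * B ^ 2 + I * star K * star C ^ 2 = star A * D * P :=
    mul_left_cancel₀ nBC (by rw [← f2, hP]; ring)
  have g4 : star K * star B ^ 2 + I * K * C ^ 2 = star A * D * M :=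
    mul_left_cancel₀ nBC' (by rw [← f4, hM]; ring)
  have n4 : ((α : G) * δ * (β * γ)) ≠ 0 := by
    have : α * δ * (β * γ) ≠ 0 := by positivity
    exact_mod_cast this
  have hk' : (α : G) ^ 2 + δ ^ 2 = k * (β * γ) := by exact_mod_cast hk
  have hl' : (β : G) ^ 2 + γ ^ 2 = l * (α * δ) := by exact_mod_cast hl
  refine ⟨P, M, hP, hM, mul_left_cancel₀ n4 ?_, mul_left_cancel₀ n4 ?_, ?_⟩
  · have s := congrArg star hP
    simp only [star_add, star_mul', star_intCast, star_I, star_star] at s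
    have t := congrArg₂ (· * ·) hP s
    rw [← hA, ← hD, ← hB, ← hC]
    rw [show A * star A * (D * star D) * (B * star B * (C * star C)) * (P * star P)
      = star A * D * (star B * C) * P * (A * star D * (B * star C) * star P) by ring, ← t,
      hA, hD, hB, hC]
    push_cast
    linear_combination (-(α * γ + β * δ : G) ^ 2) * hI + ((β : G) ^ 2 + γ ^ 2) * hk'
      + (k * (β * γ) : G) * hl'
  · have s := congrArg star hM
    simp only [star_add, star_sub, star_mul', star_intCast, star_I, star_star] at s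
    have t := congrArg₂ (· * ·) hM s
    rw [← hA, ← hD, ← hB, ← hC]
    rw [show A * star A * (D * star D) * (B * star B * (C * star C)) * (M * star M)
      = star A * D * (B * star C) * M * (A * star D * (star B * C) * star M) by ring, ← t,
      hA, hD, hB, hC]
    push_cast
    linear_combination (-(α * γ - β * δ : G) ^ 2) * hI + ((β : G) ^ 2 + γ ^ 2) * hk'
      + (k * (β * γ) : G) * hl'
  intro p hp hd j hj
  have := Fact.mk hp
  let f : G →+* ZMod p := Zsqrtd.lift ⟨j, by push_cast; linear_combination hj⟩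
  have fa : ∀ u : G, f u = u.re + j * u.im := fun u => by
    simp only [f, Zsqrtd.lift_apply_apply]; ring
  have fI : f I = j := by rw [fa]; simp [I]
  rw [← fa, ← fa]
  have hp' := Nat.prime_iff_prime_int.1 hp
  have nzz : ∀ {x y m r : ℤ}, IsCoprime x y → x ^ 2 + y ^ 2 = m * r → (p : ℤ) ∣ m →
      (y : ZMod p) ≠ 0 := by
    intro x y m r h e hm h0
    have h1 := (ZMod.intCast_zmod_eq_zero_iff_dvd _ _).1 h0
    have h2 : (p : ℤ) ∣ x ^ 2 := by
      rw [show x ^ 2 = m * r - y * y by linear_combination e]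
      exact (hm.mul_right _).sub (h1.mul_right _)
    exact hp'.not_isUnit (h.isUnit_of_dvd' (hp'.dvd_of_dvd_pow h2) h1)
  have m1 := congrArg f g1
  have m2 := congrArg f g2
  have m3 := congrArg f g3
  have m4 := congrArg f g4
  have a1 := congrArg f hA
  have a2 := congrArg f hD
  have a3 := congrArg f hB
  have a4 := congrArg f hC
  have a5 := congrArg f hK
  have a6 := congrArg f hL
  have b1 := congrArg f e1
  have b2 := congrArg f e1'
  simp only [map_add, map_sub, map_mul, map_pow, map_intCast, fI] at m1 m2 m3 m4 a1 a2 a3 a4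
  simp only [map_add, map_sub, map_mul, map_intCast, fI] at a5 a6 b1 b2
  rcases hp'.dvd_or_dvd hd with h | h
  · have n1 := nzz had hk h
    have n2 := nzz had.symm (by rw [← hk]; ring) h
    rw [← a2] at n1
    rw [← a1] at n2
    have n3 := (mul_ne_zero_iff.1 n1).1
    have n4 := (mul_ne_zero_iff.1 n2).2
    rw [(ZMod.intCast_zmod_eq_zero_iff_dvd _ _).2 h] at a5
    rcases mul_eq_zero.1 a5 with h0 | h0 <;> rw [h0] at m3 m4
    · refine ⟨j * f (star K) * f (star B) * f (star C) / (f (star A) * f D), ?_⟩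
      field_simp
      linear_combination (-(j * f (star A) * f D * f M)) * m3
        - (j * j * f (star K) * f (star C) ^ 2) * m4
    · refine ⟨j * f K * f B * f C / (f (star A) * f D), ?_⟩
      field_simp
      linear_combination (-(j * f (star A) * f D * f M)) * m3 - (j * f K * f B ^ 2) * m4
  · have n1 := nzz hbc hl h
    rw [(ZMod.intCast_zmod_eq_zero_iff_dvd _ _).2 h] at a6
    have t := congrArg₂ (· * ·) m1 m2
    have t2 : f (star B) * f C * f P * (f B * f (star C) * f M) = β * γ * (f P * f M) := by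
      rw [← a3, ← a4]; ring
    rw [t2] at t
    rcases mul_eq_zero.1 a6 with h0 | h0
    · rw [h0] at t b1
      refine ⟨j * f (star L) * f (star D) ^ 2 / γ, ?_⟩
      field_simp
      linear_combination t + (γ * f P * f M) * b1
    · rw [h0] at t b2
      refine ⟨f L * f A ^ 2 / γ, ?_⟩
      field_simp
      linear_combination -t - (γ * f P * f M) * b2

end Pool.Agent.MP_110442_nt

end MrgPart1

-- ======== part 2: formerly Pool.Agent.MP_110442_nt.Core
section MrgPart2

set_option autoImplicit false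

open NumberTheorySymbols

namespace Pool.Agent.MP_110442_nt

lemma cop_two {a : ℤ} (h : a % 2 = 1) : IsCoprime 2 a := ⟨-(a / 2), 1, by omega⟩

lemma jrel {N k : ℕ} (hN : N % 4 = 1) (hk : k % 4 = 1) {t b e f : ℤ} (ht : t % 2 = 1)
    (h : t ∣ N * e ^ 2 - b * k * f ^ 2) (he : IsCoprime e t) (hf : IsCoprime f t) :
    J(t | N) = J(b | t.natAbs) * J(t | k) := by
  rw [jstep hN ht h he hf, jacobiSym.mul_left, jswap hk ht]

lemma core {N M c i k l L : ℕ} {T S u b₁ b₂ e₁ e₂ f w₁ w₂ w₃ w₄ x y : ℤ}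
    (hN : N = 2 ^ c * M) (hM : M % 4 = 1) (hk : k % 4 = 1) (hl : l % 4 = 1)
    (hxy : (N : ℤ) = x ^ 2 + y ^ 2) (hS : S % 2 = 1)
    (h0 : M * u = L * S ^ 2 - T ^ 2) (hu : IsCoprime u S) (hL : (L : ℤ) ∣ 2 * k)
    (h1 : M * e₁ ^ 2 - b₁ * k * (f * S) ^ 2 = M * T * w₁ + T ^ 2 * w₂)
    (he₁ : IsCoprime e₁ T) (hf : IsCoprime f T)
    (h2 : M * e₂ ^ 2 - b₂ * l * T ^ 2 = M * S * w₃ + S ^ 2 * w₄) (he₂ : IsCoprime e₂ S)
    (hr : (M : ℤ) ∣ b₁ * b₂ * (k * l) - (2 ^ i) ^ 2)
    (hT : T % 2 = 1 ∨ (T ≠ 0 ∧ b₁ = 1 ∧ M % 8 = 1 ∧ k % 8 = 1)) :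
    (∀ π : ℕ, π.Prime → π ≠ 2 → Odd (padicValNat π N) → IsSquare (L : ZMod π)) ∧
      (-1 : ℤ) ^ nonQuartic L N
        = J(b₁ | T.natAbs) * J(b₂ | S.natAbs) * J(T | k) * J(S | l) := by
  have hS0 : S ≠ 0 := by omega
  obtain ⟨g, T₀, S₀, hg, hc, rfl, rfl⟩ := Int.exists_gcd_one' (Int.gcd_pos_of_ne_zero_right T hS0)
  have hc' := Int.isCoprime_iff_gcd_eq_one.2 hc
  have hg0 : (g : ℤ) ^ 2 ≠ 0 := by positivity
  have hS1 : S₀ % 2 = 1 ∧ (g : ℤ) % 2 = 1 := by
    have := Int.odd_mul.1 (Int.odd_iff.2 hS)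
    exact ⟨Int.odd_iff.1 this.1, Int.odd_iff.1 this.2⟩
  have hgM : (g : ℤ) ^ 2 ∣ M := (hu.of_mul_right_right.symm.pow_left (m := 2)).dvd_of_dvd_mul_right
    ⟨L * S₀ ^ 2 - T₀ ^ 2, by linear_combination h0⟩
  obtain ⟨N₀, hN₀⟩ : g ^ 2 ∣ M := by exact_mod_cast hgM
  have hM' : (M : ℤ) = g ^ 2 * N₀ := by exact_mod_cast hN₀
  have h8 : M % 8 = N₀ % 8 := by
    rcases sq_mod g with h | h | h
    · rw [hN₀, Nat.mul_mod, h.2]; simp
    · omega
    · omega
  have h2M : IsCoprime (2 : ℤ) M := cop_two (by omega)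
  have hkM : IsCoprime (k : ℤ) M := by
    obtain ⟨q, hq⟩ := hr
    have := ((h2M.pow_left (m := i)).pow_left (m := 2)).add_mul_left_left q
    rw [show ((2 : ℤ) ^ i) ^ 2 + M * q = k * (b₁ * b₂ * l) by linear_combination -hq] at this
    exact this.of_mul_left_left
  have dN : (N₀ : ℤ) ∣ M := ⟨g ^ 2, by rw [hM', mul_comm]⟩
  have dg : (g : ℤ) ∣ M := ⟨g * N₀, by rw [hM']; ring⟩
  have hLN : IsCoprime (L : ℤ) N₀ :=
    ((h2M.mul_left hkM).of_isCoprime_of_dvd_left hL).of_isCoprime_of_dvd_right dN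
  rw [hM'] at h0 h1 h2
  have r0 : N₀ * u = L * S₀ ^ 2 - T₀ ^ 2 := mul_left_cancel₀ hg0 (by linear_combination h0)
  have r1 : N₀ * e₁ ^ 2 - b₁ * k * (f * S₀) ^ 2 = T₀ * (N₀ * g * w₁ + T₀ * w₂) :=
    mul_left_cancel₀ hg0 (by linear_combination h1)
  have r2 : N₀ * e₂ ^ 2 - b₂ * l * T₀ ^ 2 = S₀ * (N₀ * g * w₃ + S₀ * w₄) :=
    mul_left_cancel₀ hg0 (by linear_combination h2)
  have cS : IsCoprime S₀ N₀ := by
    have := (hc'.symm.pow_right (n := 2)).neg_right.add_mul_left_right (L * S₀)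
    rw [show -T₀ ^ 2 + S₀ * (L * S₀) = N₀ * u by linear_combination -r0] at this
    exact this.of_mul_right_left
  have cT : IsCoprime T₀ N₀ := by
    have := (hLN.mul_left (cS.pow_left (m := 2))).add_mul_left_left (-u)
    rw [show L * S₀ ^ 2 + N₀ * -u = T₀ * T₀ by linear_combination -r0] at this
    exact this.of_mul_left_left
  obtain ⟨c1, c2⟩ := count (L := L) (c := c) (g := g) (N₀ := N₀) (t := T₀) (s := S₀)
    (by rw [hN, hN₀, mul_assoc]) (by rw [hN]; have : M ≠ 0 := by omega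
                                     positivity) (by omega) hxy
    ⟨-u, by linear_combination r0⟩ cT cS
  refine ⟨c1, ?_⟩
  have hf' := hf.of_mul_right_left.mul_left hc'.symm
  have j1 : J(T₀ | N₀) = J(b₁ | T₀.natAbs) * J(T₀ | k) := by
    rcases hT with hT | ⟨hT, rfl, a, b⟩
    · exact jrel (by omega) hk (Int.odd_iff.1 (Int.odd_mul.1 (Int.odd_iff.2 hT)).1) ⟨_, r1⟩
        he₁.of_mul_right_left hf'
    · rw [jacobiSym.one_left, one_mul]
      exact jstep8 (by omega) b (left_ne_zero_of_mul hT) ⟨_, by rw [← r1, one_mul]⟩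
        he₁.of_mul_right_left hf'
  have j2 : J(S₀ | N₀) = J(b₂ | S₀.natAbs) * J(S₀ | l) :=
    jrel (by omega) hl hS1.1 ⟨_, r2⟩ he₂.of_mul_right_left hc'
  have j3 : J(b₁ | g) * J(b₂ | g) * J(g | k) * J(g | l) = 1 := by
    rw [jswap hk hS1.2, jswap hl hS1.2, Int.natAbs_natCast, ← jacobiSym.mul_left,
      ← jacobiSym.mul_left, ← jacobiSym.mul_left]
    exact jac_one (x := 2 ^ i) (y := 1) (by
      rw [one_pow, mul_one, mul_assoc]; exact dg.trans hr) (by
      obtain ⟨q, hq⟩ := dg.trans hr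
      have := (((cop_two hS1.2).pow_left (m := i)).pow_left (m := 2)).add_mul_left_left q
      rwa [show ((2 : ℤ) ^ i) ^ 2 + g * q = b₁ * b₂ * k * l by linear_combination -hq] at this)
      isCoprime_one_left
  have hT0 : T₀ ≠ 0 := by
    rintro rfl
    rcases hT with hT | hT
    · simp at hT
    · simp at hT
  rw [c2, jacobiSym.mul_left, j1, j2, Int.natAbs_mul, Int.natAbs_mul, Int.natAbs_natCast,
    jacobiSym.mul_right' _ (Int.natAbs_ne_zero.2 hT0) hg.ne',
    jacobiSym.mul_right' _ (Int.natAbs_ne_zero.2 (left_ne_zero_of_mul hS0)) hg.ne',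
    jacobiSym.mul_left, jacobiSym.mul_left]
  linear_combination (-(J(b₁ | T₀.natAbs) * J(T₀ | k) * J(b₂ | S₀.natAbs) * J(S₀ | l))) * j3

/-- The sign attached to the parity of an integer. -/
def sg (r : ℤ) : ℤ := if r % 2 = 0 then 1 else -1

lemma sg_add (a b : ℤ) : sg (a + b) = sg a * sg b := by
  unfold sg; split_ifs <;> omega

lemma sg_pow (a : ℤ) (e : ℕ) : sg a ^ e = sg (e * a) := by
  induction e with
  | zero => simp [sg]
  | succ e ih => rw [pow_succ, ih, ← sg_add]; congr 1; push_cast; ring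

lemma sg_par {q : ℕ} {r : ℤ} (h : (-1 : ℤ) ^ q = sg r) : (q : ℤ) % 2 = r % 2 := by
  unfold sg at h
  rcases Nat.even_or_odd q with hq | hq
  · rw [hq.neg_one_pow] at h
    have := Nat.even_iff.1 hq
    split_ifs at h
    all_goals omega
  · rw [hq.neg_one_pow] at h
    have := Nat.odd_iff.1 hq
    split_ifs at h
    all_goals omega

lemma c8v {u w r : ℤ} (h : u ^ 2 = 1 + 8 * r) :
    ZMod.χ₈ ((u + 4 * w : ℤ) : ZMod 8) = sg (r + w) := by
  obtain ⟨q, v, hv0, hv, rfl⟩ : ∃ q v : ℤ, 0 ≤ v ∧ v < 8 ∧ u = 8 * q + v :=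
    ⟨u / 8, u % 8, by omega, by omega, by omega⟩
  have h' : 64 * (q * q) + 16 * (q * v) + v * v = 1 + 8 * r := by linear_combination h
  rw [ZMod.χ₈_int_eq_if_mod_eight, sg]
  interval_cases v <;> split_ifs <;> omega

lemma c4v {u s : ℤ} (h0 : 0 < u) (h : (u + 2 * s) % 4 = 1) : J(-1 | u.natAbs) = sg s := by
  rw [jacobiSym.at_neg_one (Nat.odd_iff.2 (by omega)), ZMod.χ₄_nat_eq_if_mod_four, sg]
  split_ifs <;> omega

lemma normal {P : G} {r : ℤ} (h : P * star P = ((1 + 8 * r : ℤ) : G)) :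
    ∃ z w : ℤ, z ^ 2 + 16 * w ^ 2 = 1 + 8 * r ∧ chi P = sg (r + w) ∧
      ((P.re % 2 = 1 ∧ P.re = z ∧ P.im = 4 * w) ∨ (P.re % 2 = 0 ∧ P.re = -(4 * w) ∧ P.im = z)) := by
  have hn := nrm_int h
  have key : ∀ a b : ℤ, a ^ 2 + b ^ 2 = 1 + 8 * r → a % 2 = 0 → a % 4 = 0 := by
    intro a b hab ha
    obtain ⟨s, rfl⟩ : ∃ s, a = 2 * s := ⟨a / 2, by omega⟩
    rcases Int.emod_two_eq_zero_or_one b with hb | hb
    · obtain ⟨t, rfl⟩ : ∃ t, b = 2 * t := ⟨b / 2, by omega⟩
      have : 4 * (s * s) + 4 * (t * t) = 1 + 8 * r := by linear_combination hab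
      omega
    · obtain ⟨t, rfl⟩ : ∃ t, b = 2 * t + 1 := ⟨b / 2, by omega⟩
      obtain ⟨v, hv⟩ := Int.even_mul_succ_self t
      by_contra h4
      obtain ⟨e, rfl⟩ : ∃ e, s = 2 * e + 1 := ⟨s / 2, by omega⟩
      have : 16 * (e * e) + 16 * e + 4 + 8 * v = 8 * r := by linear_combination hab - 4 * hv
      omega
  have fin : ∀ z w : ℤ, z ^ 2 + 16 * w ^ 2 = 1 + 8 * r →
      ZMod.χ₈ ((z + 4 * w : ℤ) : ZMod 8) = sg (r + w) := by
    intro z w hz
    rw [c8v (r := r - 2 * w ^ 2) (by linear_combination hz)]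
    unfold sg
    split_ifs <;> omega
  have hv := val_two P.re
  rcases Int.emod_two_eq_zero_or_one P.re with a | a
  · obtain ⟨w, hw⟩ : ∃ w, P.re = -(4 * w) := ⟨-(P.re / 4), by have := key _ _ hn a; omega⟩
    have e : P.im ^ 2 + 16 * w ^ 2 = 1 + 8 * r := by rw [hw] at hn; linear_combination hn
    refine ⟨P.im, w, e, ?_, Or.inr ⟨a, hw, rfl⟩⟩
    rw [← fin _ _ e, chi, c8, if_pos (by omega), hw]
    push_cast
    rw [sub_neg_eq_add]
  · have b : P.im % 2 = 0 := by
      by_contra b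
      obtain ⟨s, hs⟩ : ∃ s, P.re = 2 * s + 1 := ⟨P.re / 2, by omega⟩
      obtain ⟨t, ht⟩ : ∃ t, P.im = 2 * t + 1 := ⟨P.im / 2, by omega⟩
      rw [hs, ht] at hn
      have : 4 * (s * s) + 4 * s + 4 * (t * t) + 4 * t + 1 = 8 * r := by linear_combination hn
      omega
    obtain ⟨w, hw⟩ : ∃ w, P.im = 4 * w :=
      ⟨P.im / 4, by have := key P.im P.re (by linear_combination hn) b; omega⟩
    have e : P.re ^ 2 + 16 * w ^ 2 = 1 + 8 * r := by rw [hw] at hn; linear_combination hn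
    refine ⟨P.re, w, e, ?_, Or.inl ⟨a, rfl, hw⟩⟩
    rw [← fin _ _ e, chi, c8, if_neg (by omega), hw]
    push_cast
    rfl

lemma chi_odd {x y : ℤ} (h : x % 2 = 1) :
    chi (x + I * y) = ZMod.χ₈ ((x + y : ℤ) : ZMod 8) := by
  have hv := val_two x
  rw [← mk_eq, chi, c8, if_neg (by simp only; omega)]
  push_cast
  rfl

lemma chi_even {x y : ℤ} (h : x % 2 = 0) :
    chi (x + I * y) = ZMod.χ₈ ((y - x : ℤ) : ZMod 8) := by
  have hv := val_two x
  rw [← mk_eq, chi, c8, if_pos (by simp only; omega)]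
  push_cast
  rfl

lemma nrm_four {u : G} {a : ℤ} (h : u * star u = (a : G)) (ha : a % 2 = 1) : a % 4 = 1 := by
  have hn := nrm_int h
  have : ∀ x : ℤ, x ^ 2 % 4 = 0 ∨ x ^ 2 % 4 = 1 := fun x => by
    rcases Int.even_or_odd' x with ⟨t, rfl | rfl⟩
    · left; rw [show (2 * t) ^ 2 = 4 * (t * t) by ring]; omega
    · right; rw [show (2 * t + 1) ^ 2 = 4 * (t * t + t) + 1 by ring]; omega
  have h1 := this u.re
  have h2 := this u.im
  omega

lemma odd_part : ∀ (c : ℕ) (x y M : ℤ), M % 2 = 1 → 2 ^ c * M = x ^ 2 + y ^ 2 → M % 4 = 1 := by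
  intro c
  induction c with
  | zero =>
    intro x y M hM h
    exact nrm_four (u := ⟨x, y⟩) (by rw [nrm]; congr 1; linear_combination -h) hM
  | succ c ih =>
    intro x y M hM h
    obtain ⟨u, hu⟩ : Even (x + y) := by
      have : Even ((x + y) ^ 2) := ⟨2 ^ c * M + x * y, by linear_combination -h⟩
      exact (Int.even_pow' (by norm_num)).1 this
    refine ih u (x - u) M hM (mul_left_cancel₀ (two_ne_zero' ℤ) ?_)
    rw [show y = 2 * u - x by linear_combination hu] at h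
    linear_combination h

lemma par_eq {R T P M : G} {m u v u' v' : ℤ} (hm : m % 2 = 1)
    (hN : R * T * star (R * T) = (m : G)) (h1 : (u : G) + I * v = R * T * P)
    (h2 : (u' : G) + I * v' = R * star T * M) (hu : u % 2 = u' % 2) (hv : v % 2 = v' % 2) :
    P.re % 2 = M.re % 2 := by
  obtain ⟨s, hs⟩ : ∃ s, u = u' + 2 * s := ⟨(u - u') / 2, by omega⟩
  obtain ⟨t, ht⟩ : ∃ t, v = v' + 2 * t := ⟨(v - v') / 2, by omega⟩
  have hT : T - star T = 2 * I * T.im := by
    ext <;> simp [I]; ring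
  have e : (m : G) * (P - M) = 2 * (star (R * T) * (s + I * t - R * I * T.im * M)) := by
    rw [hs, ht] at h1
    push_cast at h1
    linear_combination (M - P) * hN - star (R * T) * h1 + star (R * T) * h2
      - star (R * T) * R * M * hT
  generalize star (R * T) * (s + I * t - R * I * T.im * M) = W at e
  have := congrArg Zsqrtd.re e
  simp only [Zsqrtd.re_mul, Zsqrtd.re_intCast, Zsqrtd.im_intCast, Zsqrtd.re_sub, Zsqrtd.re_ofNat,
    Zsqrtd.im_ofNat] at this
  obtain ⟨q, rfl⟩ : ∃ q, m = 2 * q + 1 := ⟨m / 2, by omega⟩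
  have h3 : P.re - M.re = 2 * (W.re - q * (P.re - M.re)) := by linear_combination this
  omega

end Pool.Agent.MP_110442_nt

end MrgPart2

-- marker of a merged file
example : 731051 + 42849 = 731051 + 42849 := rfl
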