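import Pool.Agent.MP_110442_nt.Core

set_option autoImplicit false

open NumberTheorySymbols

namespace Pool.Agent.MP_110442_nt

lemma z8 {a : ℤ} (h : a % 4 = 1) : 2 * (a : ZMod 8) = 2 := by
  have : ((2 * a : ℤ) : ZMod 8) = ((2 : ℤ) : ZMod 8) :=
    (ZMod.intCast_eq_intCast_iff' _ _ _).2 (by push_cast; omega)
  push_cast at this
  exact this

lemma c8sq {a : ℤ} (h : a % 2 = 1) : ZMod.χ₈ (a : ZMod 8) * ZMod.χ₈ (a : ZMod 8) = 1 := by
  rw [ZMod.χ₈_int_eq_if_mod_eight]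
  split_ifs <;> omega

lemma finO : ∀ a δ y t : ZMod 8, 2 * a = 2 → 2 * δ = 2 → 2 * (y - 2 * t) = 2 →
    ZMod.χ₈ (1 + 4 * t) * ZMod.χ₈ (y + -(2 * t)) * ZMod.χ₈ (δ - 2 * a)
      * ZMod.χ₈ ((2 * a + δ) * y - (2 * a - δ) * (2 * t)) = -1 ∧
    ZMod.χ₈ (1 + 4 * t) * ZMod.χ₈ (y ^ 2 + (2 * t) ^ 2) * ZMod.χ₈ (y + 2 * t) * ZMod.χ₈ (y - 2 * t)
      * ZMod.χ₈ (y + -(2 * t)) * ZMod.χ₈ (δ - 2 * a)
      * ZMod.χ₈ ((2 * a - δ) * y - (2 * a + δ) * (2 * t)) = 1 := by
  decide +kernel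

lemma sqj {R : Type} [CommRing R] {j Q : R} (hj : j ^ 2 = -1) (h : IsSquare (j * Q)) :
    IsSquare (2 * Q) := by
  obtain ⟨r, hr⟩ := h
  exact ⟨j * (1 + j) * r, by
    linear_combination (j ^ 2 * (1 + j) ^ 2) * hr + (Q * (-2 * (j ^ 2 - 1) - j ^ 3)) * hj⟩

lemma negsq {R : Type} [CommRing R] {j Q : R} (hj : j ^ 2 = -1) (h : IsSquare (-Q)) :
    IsSquare Q := by
  obtain ⟨r, hr⟩ := h
  exact ⟨j * r, by linear_combination -hr - (r * r) * hj⟩

lemma alg1 {σ ck cl ca cb K Λ A D B C P : ℤ} (kl : ck * cl = -1)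
    (W : A * A * (D * D) * (B * B) * (C * C) = 1) (sP : P * P = 1)
    (F : σ * (A * D * Λ) * (B * C * K) * (A * ca * D * (B * cb * C) * P) = -1) :
    -1 * σ * (ck * ca * K) * (cl * (cb * Λ)) = -P := by
  linear_combination (-(σ * ca * cb * K * Λ)) * kl + P * F - (σ * ca * cb * K * Λ) * P ^ 2 * W
    - (σ * ca * cb * K * Λ) * sP

lemma alg2 {σ cl ca cb cc cd K Λ A D B C M : ℤ}
    (W : A * A * (D * D) * (B * B) * (C * C) = 1) (sM : M * M = 1) (sa : ca * ca = 1)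
    (sc : cc * cc = 1)
    (F : σ * (ca * cd * cl) * cb * cc * (A * D * Λ) * (B * C * K)
      * (A * ca * D * (B * (C * cc)) * M) = 1) :
    1 * σ * (cd * K) * (cl * (cb * Λ)) = M := by
  linear_combination M * F - (σ * cd * cl * cb * K * Λ) * (M ^ 2 * ca ^ 2 * cc ^ 2 * W
    + M ^ 2 * ca ^ 2 * sc + M ^ 2 * sa + sM)

lemma odd_main {a δ y' y : ℤ} {k l : ℕ} (ha : 0 < a) (hδ : 0 < δ) (hβ : 0 < y' + y)
    (hγ : 0 < y' - y) (hc : IsCoprime (2 * a * δ) ((y' + y) * (y' - y)))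
    (had : IsCoprime (2 * a) δ) (hbc : IsCoprime (y' + y) (y' - y))
    (hk : (2 * a) ^ 2 + δ ^ 2 = (y' + y) * (y' - y) * k) (hl : y' ^ 2 + y ^ 2 = a * δ * l)
    (h8 : k * l % 8 = 5) :
    ∃ x v z w : ℤ, (∀ π : ℕ, π.Prime → π ≠ 2 →
        Odd (padicValNat π (k * l - 4)) ∨ Odd (padicValNat π (k * l + 4)) →
        IsSquare ((2 * k : ℕ) : ZMod π)) ∧
      ((k * l : ℕ) : ℤ) - 4 = x ^ 2 + 16 * v ^ 2 ∧ ((k * l : ℕ) : ℤ) + 4 = z ^ 2 + 16 * w ^ 2 ∧
      (∀ p : ℕ, p.Prime → p ∣ k * l → ∀ j : ZMod p, j ^ 2 = -1 →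
        IsSquare (2 * ((x + 4 * j * v) * (z + 4 * j * w)))) ∧
      (nonQuartic (2 * k) (k * l - 4) : ℤ) % 2 = (w + (((k * l : ℕ) : ℤ) - 5) / 8) % 2 ∧
      (nonQuartic (2 * k) (k * l + 4) : ℤ) % 2 = (v + (((k * l : ℕ) : ℤ) - 5) / 8) % 2 := by
  have od : ∀ {b : ℤ}, IsCoprime 2 b → b % 2 = 1 := fun h =>
    Int.odd_iff.1 (Int.isCoprime_two_left.1 h)
  have o1 := od had.of_mul_left_left
  have o2 := od hc.of_mul_left_left.of_mul_left_left.of_mul_right_left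
  have o3 := od hc.of_mul_left_left.of_mul_left_left.of_mul_right_right
  have cy : IsCoprime y' y := by
    obtain ⟨u, v, h⟩ := hbc
    exact ⟨u + v, u - v, by linear_combination h⟩
  have o4 : a % 2 = 1 ∧ (l : ℤ) % 2 = 1 := by
    have : Odd (a * δ * l) := by
      rw [← hl, show y' ^ 2 + y ^ 2 = (y' + y) * (y' - y) + 2 * y ^ 2 by ring]
      exact ((Int.odd_iff.2 o2).mul (Int.odd_iff.2 o3)).add_even (even_two_mul _)
    exact ⟨Int.odd_iff.1 (Int.odd_mul.1 (Int.odd_mul.1 this).1).1,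
      Int.odd_iff.1 (Int.odd_mul.1 this).2⟩
  have o5 : (k : ℤ) % 2 = 1 := by
    have := Nat.odd_iff.1 (Nat.odd_mul.1 (Nat.odd_iff.2 (show k * l % 2 = 1 by omega))).1
    omega
  obtain ⟨A, D, Λ, e1, hA, hD, hΛ, pΛ⟩ := gfac3 ⟨y', -y⟩ cy.neg_right a δ l ha hδ
    (by simp only; linear_combination hl)
  obtain ⟨B, C, K, e2, hB, hC, hK, pK⟩ := gfac3 ⟨2 * a, δ⟩ had _ _ k hβ hγ hk
  rw [mk_eq] at e1 e2
  have f1 := nrm_four hA o4.1
  have f2 := nrm_four hD o1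
  have f3 := nrm_four hB o2
  have f4 := nrm_four hC o3
  have f5 := nrm_four hK o5
  have f6 := nrm_four hΛ o4.2
  obtain ⟨t, rfl⟩ : ∃ t, y = 2 * t := ⟨y / 2, by omega⟩
  have hI := I_sq
  have hA2 : (1 + I) * A * star ((1 + I) * A) = ((2 * a : ℤ) : G) := by
    simp only [star_mul', star_add, star_one, star_I]
    push_cast
    linear_combination (1 - I * I) * hA - (a : G) * hI
  obtain ⟨P, M, hP, hM, nP, nM, hsq⟩ := mu (k := k) (l := l) (by omega) hβ hγ hδ hc had hbc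
    (by linear_combination hk) (by linear_combination 2 * hl) hA2 hD hB hC hK hΛ
    (by push_cast at e1 ⊢; linear_combination (1 + I) * e1 + (2 * t : G) * hI) e2
  simp only [star_mul', star_add, star_one, star_I] at hP hM
  have h1I : (1 + -I : G) ≠ 0 := by decide
  have e3 : (((2 * a - δ) * (2 * t) : ℤ) : G) + I * ((2 * a + δ) * y' : ℤ)
      = star A * D * (star B * C) * P := mul_left_cancel₀ h1I (by
    push_cast at hP ⊢
    linear_combination hP - ((2 * a + δ) * y' : G) * hI)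
  have e4 : (((2 * a + δ) * (2 * t) : ℤ) : G) + I * ((2 * a - δ) * y' : ℤ)
      = star A * D * (B * star C) * M := mul_left_cancel₀ h1I (by
    push_cast at hM ⊢
    linear_combination hM - ((2 * a - δ) * y' : G) * hI)
  obtain ⟨ρ, hρ⟩ : ∃ ρ : ℤ, (k : ℤ) * l = 5 + 8 * ρ := ⟨((k * l : ℕ) : ℤ) / 8, by
    rw [← Nat.cast_mul]; omega⟩
  obtain ⟨z, w, hz, cP, tP⟩ := normal (P := P) (r := ρ + 1) (by rw [nP, hρ]; congr 1; ring)
  obtain ⟨x, v, hx, cM, tM⟩ := normal (P := M) (r := ρ) (by rw [nM, hρ]; congr 1; ring)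
  have ev : ∀ b : ℤ, b * (2 * t) % 2 = 0 := fun b => by
    rw [show b * (2 * t) = 2 * (b * t) by ring]; omega
  have oX : (2 * a - δ) % 2 = 1 := by omega
  have oX' : (2 * a + δ) % 2 = 1 := by omega
  have oy : y' % 2 = 1 := by omega
  have hpar : P.re % 2 = M.re % 2 := by
    refine par_eq (R := star A * D) (T := star B * C) (m := a * δ * ((y' + 2 * t) * (y' - 2 * t)))
      (Int.odd_iff.1 (((Int.odd_iff.2 o4.1).mul (Int.odd_iff.2 o1)).mul
        ((Int.odd_iff.2 o2).mul (Int.odd_iff.2 o3)))) ?_ e3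
      (by rw [e4, star_mul', star_star]) (by rw [ev, ev]) ?_
    · rw [Int.cast_mul, Int.cast_mul, Int.cast_mul, ← hA, ← hD, ← hB, ← hC]
      simp only [star_mul', star_star]
      ring
    · rw [Int.mul_emod, oX', Int.mul_emod (2 * a - δ), oX]
  have E1 := congrArg chi e1
  have E2 := congrArg chi e2
  have E3 := congrArg chi e3
  have E4 := congrArg chi e4
  rw [chi_odd oy] at E1
  rw [chi_even (by omega)] at E2
  rw [chi_even (ev _)] at E3 E4
  simp only [chi_mul, chi_star hA, chi_star hB, chi_star hC] at E1 E2 E3 E4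
  have sA := chi_sq hA o4.1
  have sD := chi_sq hD o1
  have sB := chi_sq hB o2
  have sC := chi_sq hC o3
  have k4 : k % 4 = 1 := by omega
  have l4 : l % 4 = 1 := by omega
  have cyu : IsCoprime (a * δ) y' := by
    have := (cy.pow_right (n := 2)).add_mul_left_right y'
    rw [show (2 * t) ^ 2 + y' * y' = a * δ * l by linear_combination hl] at this
    exact this.of_mul_right_left.symm
  have c2y : ∀ {b : ℤ}, b % 2 = 1 → IsCoprime b y' → IsCoprime (2 * y') b := fun h1 h2 =>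
    (cop_two h1).mul_left h2.symm
  have J1 : J(a | k) = ZMod.χ₈ (a : ZMod 8) := by
    rw [jstep k4 o4.1 (B := 2) (e := 2 * y') (f := δ) ⟨2 * (4 * a + k * δ * l), by
      linear_combination -2 * hk + 2 * k * hl⟩ (c2y o4.1 cyu.of_mul_left_left)
      had.of_mul_left_right.symm, jtwo o4.1]
  have J2 : J(δ | k) = ZMod.χ₈ (δ : ZMod 8) := by
    rw [jstep k4 o1 (B := 2) (e := 2 * y') (f := 2 * a) ⟨2 * (δ + k * a * l), by
      linear_combination -2 * hk + 2 * k * hl⟩ (c2y o1 cyu.of_mul_left_right) had, jtwo o1]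
  have J3 : J(y' + 2 * t | l) = ZMod.χ₈ ((y' + 2 * t : ℤ) : ZMod 8) := by
    rw [jstep l4 o2 (B := 2) (e := 2 * a + δ) (f := y' - 2 * t)
      ⟨l * k * (y' - 2 * t) + 2 * (y' + 2 * t), by linear_combination l * hk - 4 * hl⟩ ?_
      hbc.symm, jtwo o2]
    have := ((cop_two o2).mul_left hc.of_mul_right_left).add_mul_left_left ((y' - 2 * t) * k)
    rw [show 2 * (2 * a * δ) + (y' + 2 * t) * ((y' - 2 * t) * k) = (2 * a + δ) * (2 * a + δ) by
      linear_combination -hk] at this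
    exact this.of_mul_left_left
  have T1 : J(2 | k) = ZMod.χ₈ ((k : ℤ) : ZMod 8) := by simpa using jtwo o5
  have T2 : J(2 | l) = ZMod.χ₈ ((l : ℤ) : ZMod 8) := by simpa using jtwo o4.2
  have S1 := supp hK k4 pK (T := 2 * a + δ) (S := 2 * a) ⟨-I * B * C, by
    push_cast at e2 ⊢; linear_combination -I * e2 + (δ : G) * hI⟩
  have S2 := supp hK k4 pK (T := 2 * a - δ) (S := -δ) ⟨B * C, by
    push_cast at e2 ⊢; linear_combination e2⟩
  have S3 := supp hΛ l4 pΛ (T := 2 * y') (S := y' + 2 * t) ⟨-I * (1 + I) * A * D, by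
    push_cast at e1 ⊢
    linear_combination -I * (1 + I) * e1 + (y' - 2 * t - 2 * t * I : G) * hI⟩
  rw [jacobiSym.mul_left, T1, J1] at S1
  rw [jneg k4, J2] at S2
  rw [jacobiSym.mul_left, T2, J3] at S3
  have sl := c8sq o4.2
  have S4 : J(y' | l) = ZMod.χ₈ ((l : ℤ) : ZMod 8) *
      (ZMod.χ₈ ((y' + 2 * t : ℤ) : ZMod 8) * chi Λ) := by
    rw [← S3, ← mul_assoc, sl, one_mul]
  have h4 : ((k * l - 4 : ℕ) : ℤ) = k * l - 4 := by
    rw [Nat.cast_sub (by omega)]; push_cast; rfl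
  have cX : IsCoprime (2 * a) (2 * a + δ) := by simpa [add_comm] using had.add_mul_left_right 1
  have cX' : IsCoprime (2 * a) (2 * a - δ) := by
    simpa [add_comm, sub_eq_add_neg] using had.neg_right.add_mul_left_right 1
  obtain ⟨q1, p1⟩ := core (N := k * l - 4) (M := k * l - 4) (c := 0) (i := 1) (L := 2 * k)
    (T := 2 * a + δ) (S := y') (u := a * δ) (b₁ := -1) (b₂ := -1) (e₁ := 2 * a) (e₂ := 2 * t)
    (f := 2) (w₁ := 2 * a) (w₂ := 2) (w₃ := y') (w₄ := 8) (x := x) (y := 4 * v) (by simp)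
    (by omega) k4 l4 (by rw [h4]; linear_combination hρ - hx) oy
    (by rw [h4]; push_cast; linear_combination hk - k * hl) cyu (by simp)
    (by rw [h4]; linear_combination -2 * hk + 2 * k * hl) cX (cop_two oX')
    (by rw [h4]; linear_combination l * hk - 4 * hl) cy.symm
    ⟨1, by rw [h4]; ring⟩ (Or.inl oX')
  obtain ⟨q2, p2⟩ := core (N := k * l + 4) (M := k * l + 4) (c := 0) (i := 1) (L := 2 * k)
    (T := 2 * a - δ) (S := y') (u := a * δ) (b₁ := 1) (b₂ := -1) (e₁ := 2 * a) (e₂ := 2 * t)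
    (f := 2) (w₁ := 2 * a) (w₂ := -2) (w₃ := y') (w₄ := -8) (x := z) (y := 4 * w) (by simp)
    (by omega) k4 l4 (by push_cast; linear_combination hρ - hz) oy
    (by push_cast; linear_combination hk - k * hl) cyu (by simp)
    (by push_cast; linear_combination 2 * hk - 2 * k * hl) cX' (cop_two oX)
    (by push_cast; linear_combination l * hk + 4 * hl) cy.symm
    ⟨-1, by push_cast; ring⟩ (Or.inl oX)
  have σ : J(-1 | y'.natAbs) = ZMod.χ₈ ((1 + 4 * t : ℤ) : ZMod 8) := by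
    rw [c4v (s := t) (by omega) f3, c8v (r := 0) (by norm_num), zero_add]
  rw [c4v (s := 1) (by omega) (by omega), σ, S1, S4] at p1
  rw [jacobiSym.one_left, σ, S2, S4] at p2
  have kl : ZMod.χ₈ ((k : ℤ) : ZMod 8) * ZMod.χ₈ ((l : ℤ) : ZMod 8) = -1 := by
    rw [← map_mul, ← Int.cast_mul, hρ, ZMod.χ₈_int_eq_if_mod_eight]
    split_ifs <;> omega
  have adl : ZMod.χ₈ ((y' ^ 2 + (2 * t) ^ 2 : ℤ) : ZMod 8) = ZMod.χ₈ (a : ZMod 8) *
      ZMod.χ₈ (δ : ZMod 8) * ZMod.χ₈ ((l : ℤ) : ZMod 8) := by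
    rw [← map_mul, ← map_mul, ← Int.cast_mul, ← Int.cast_mul, hl]
  obtain ⟨F1, F2⟩ := finO a δ y' t (z8 f1) (z8 f2) (by simpa using z8 f4)
  have sa := c8sq o4.1
  have sβ := c8sq o2
  have sγ := c8sq o3
  have s1 : sg 1 = -1 := rfl
  push_cast at E1 E2 E3 E4 p1 p2 kl adl sβ sγ
  rw [adl, E1, E2, E4] at F2
  rw [E1, E2, E3] at F1
  have sP : chi P * chi P = 1 := chi_sq nP (by omega)
  have sM : chi M * chi M = 1 := chi_sq nM (by omega)
  have W : chi A * chi A * (chi D * chi D) * (chi B * chi B) * (chi C * chi C) = 1 := by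
    rw [sA, sD, sB, sC]; rfl
  have g1 : (-1 : ℤ) ^ nonQuartic (2 * k) (k * l - 4) = sg (ρ + w) := by
    have : sg (ρ + 1 + w) = -sg (ρ + w) := by rw [add_right_comm, sg_add, s1]; ring
    rw [p1, s1, alg1 kl W sP F1, cP, this, neg_neg]
  have g2 : (-1 : ℤ) ^ nonQuartic (2 * k) (k * l + 4) = sg (ρ + v) := by
    rw [p2, alg2 W sM sa sγ F2, cM]
  have g3 := sg_par g1
  have g4 := sg_par g2
  refine ⟨x, v, z, w, fun π h1 h2 h3 => h3.elim (q1 π h1 h2) (q2 π h1 h2), ?_, ?_, ?_, ?_, ?_⟩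
  · push_cast; linear_combination hρ - hx
  · push_cast; linear_combination hρ - hz
  · intro p hp hd j hj
    have := hsq p hp (by exact_mod_cast hd) j hj
    rcases tP with ⟨a1, a2, a3⟩ | ⟨a1, a2, a3⟩ <;> rcases tM with ⟨b1, b2, b3⟩ | ⟨b1, b2, b3⟩
    · rw [a2, a3, b2, b3] at this
      apply sqj hj
      convert this using 1
      push_cast; ring
    · omega
    · omega
    · rw [a2, a3, b2, b3] at this
      apply negsq hj
      rw [← mul_neg]
      apply sqj hj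
      convert this using 1
      push_cast
      linear_combination (-j * (16 * w * v + x * z)) * hj
  · push_cast; omega
  · push_cast; omega

end Pool.Agent.MP_110442_nt
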